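import Mathlib
import Pool.Agent.H853R2.Skolem.Ann

set_option autoImplicit false

open Polynomial Finset

namespace Pool.Agent.H853R2.Skolem

theorem exists_period {p : ℕ} [Fact p.Prime] (Q : (ZMod p)[X]) (hQ : Q.Monic)
    (h0 : Q.coeff 0 ≠ 0) :
    ∃ L, 1 ≤ L ∧ L ≤ p ^ Q.natDegree ∧ Q ∣ X ^ L - 1 := by
  classical
  set d := Q.natDegree with hd
  -- residues
  let φ : Fin (p ^ d + 1) → (Fin d → ZMod p) := fun i j => (X ^ (i : ℕ) %ₘ Q).coeff j
  obtain ⟨a, b, hab, hφ⟩ : ∃ a b, a ≠ b ∧ φ a = φ b := by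
    apply Fintype.exists_ne_map_eq_of_card_lt
    simp [ZMod.card]
  have heq : ∀ a b : Fin (p ^ d + 1), φ a = φ b → (X : (ZMod p)[X]) ^ (a : ℕ) %ₘ Q = X ^ (b : ℕ) %ₘ Q := by
    intro a b h
    by_cases hd0 : Q = 1
    · rw [hd0]; simp
    ext i
    by_cases hi : i < d
    · exact congrFun h ⟨i, hi⟩
    · have hdeg : ∀ A : (ZMod p)[X], (A %ₘ Q).coeff i = 0 := by
        intro A
        apply coeff_eq_zero_of_natDegree_lt
        exact lt_of_lt_of_le (natDegree_modByMonic_lt A hQ hd0) (by omega)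
      rw [hdeg, hdeg]
  have key : ∀ a b : ℕ, a < b → (X : (ZMod p)[X]) ^ a %ₘ Q = X ^ b %ₘ Q → Q ∣ X ^ (b - a) - 1 := by
    intro a b hab h
    have h1 : Q ∣ X ^ b - X ^ a := by
      rw [← modByMonic_eq_zero_iff_dvd hQ, sub_modByMonic, h, sub_self]
    have h2 : (X : (ZMod p)[X]) ^ b - X ^ a = X ^ a * (X ^ (b - a) - 1) := by
      rw [mul_sub, ← pow_add, mul_one]
      congr 2
      omega
    rw [h2] at h1
    have hcop : IsCoprime Q (X ^ a) := by
      apply IsCoprime.pow_right
      -- Q coprime to X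
      have hirr : Irreducible (X : (ZMod p)[X]) := irreducible_X
      rcases (EuclideanDomain.dvd_or_coprime (X : (ZMod p)[X]) Q hirr) with h | h
      · exact absurd (X_dvd_iff.1 h) h0
      · exact h.symm
    exact hcop.dvd_of_dvd_mul_left h1
  rcases lt_or_gt_of_ne (fun h => hab (Fin.ext h) : (a : ℕ) ≠ (b : ℕ)) with hlt | hlt
  · exact ⟨b - a, by omega, by have := b.2; omega, key a b hlt (heq a b hφ)⟩
  · exact ⟨a - b, by omega, by have := a.2; omega, key b a hlt (heq b a hφ.symm)⟩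

theorem period_dvd {R : Type*} [CommRing R] (Q : R[X]) (L L' : ℕ) (h : Q ∣ X ^ L - 1)
    (hd : L ∣ L') : Q ∣ X ^ L' - 1 := by
  obtain ⟨k, rfl⟩ := hd
  refine h.trans ?_
  rw [pow_mul]
  simpa using sub_dvd_pow_sub_pow (X ^ L : R[X]) 1 k

/-- If the first `natDegree P` terms along a progression vanish, all do. -/
theorem dterm (f : ℕ → ℤ) (P : ℤ[X]) (hP : P.Monic) (hann : Ann P f) (L s d : ℕ)
    (hd : P.natDegree ≤ d)
    (h : ∀ m < d, f (s + L * m) = 0) : ∀ m, f (s + L * m) = 0 := by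
  classical
  have pb := AdjoinRoot.powerBasis' hP
  have : Module.Free ℤ (AdjoinRoot P) := Module.Free.of_basis pb.basis
  have : Module.Finite ℤ (AdjoinRoot P) := Module.Finite.of_basis pb.basis
  have hfin : Module.finrank ℤ (AdjoinRoot P) = P.natDegree := by
    rw [(AdjoinRoot.powerBasis' hP).finrank, AdjoinRoot.powerBasis'_dim]
  set T : AdjoinRoot P := (AdjoinRoot.root P) ^ L with hT
  set χ := (LinearMap.mulLeft ℤ T).charpoly with hχ
  have hχm : χ.Monic := LinearMap.charpoly_monic _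
  have hχd : χ.natDegree = P.natDegree := by
    rw [hχ, LinearMap.charpoly_natDegree, hfin]
  have h1 : aeval T χ = 0 := by
    have h2 := LinearMap.aeval_self_charpoly (LinearMap.mulLeft ℤ T)
    have h3 : ∀ q : ℤ[X], aeval (LinearMap.mulLeft ℤ T) q = LinearMap.mulLeft ℤ (aeval T q) := by
      intro q
      have : (LinearMap.mulLeft ℤ T) = Algebra.lmul ℤ (AdjoinRoot P) T := rfl
      rw [this]
      exact Polynomial.aeval_algHom_apply (Algebra.lmul ℤ (AdjoinRoot P)) T q
    rw [h3] at h2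
    have := congrArg (fun g => g 1) h2
    simpa using this
  have h2 : P ∣ χ.comp (X ^ L) := by
    rw [← AdjoinRoot.mk_eq_zero]
    have : AdjoinRoot.mk P (χ.comp (X ^ L)) = aeval T χ := by
      rw [← AdjoinRoot.aeval_eq, Polynomial.aeval_comp]
      simp [hT]
    rw [this, h1]
  obtain ⟨E, hE⟩ := h2
  have h3 : ∀ m, ∑ i ∈ Finset.range (χ.natDegree + 1), χ.coeff i * f (s + L * (m + i)) = 0 := by
    intro m
    have h4 : phi f (χ.comp (X ^ L) * X ^ (s + L * m)) = 0 := by
      rw [hE, mul_assoc, hann]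
    rw [← h4]
    conv_rhs => rw [Polynomial.comp, Polynomial.eval₂_eq_sum_range]
    rw [Finset.sum_mul, map_sum]
    apply Finset.sum_congr rfl
    intro i _
    rw [mul_assoc, phi_C_mul, ← pow_mul, ← pow_add, phi_X_pow]
    congr 2
    ring
  intro m
  induction m using Nat.strong_induction_on with
  | _ m ih =>
    by_cases hm : m < d
    · exact h m hm
    have h5 := h3 (m - χ.natDegree)
    rw [Finset.sum_range_succ, hχm.coeff_natDegree, one_mul] at h5
    have h6 : m - χ.natDegree + χ.natDegree = m := by omega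
    rw [h6] at h5
    rw [Finset.sum_eq_zero, zero_add] at h5
    · exact h5
    · intro i hi
      rw [Finset.mem_range] at hi
      rw [ih _ (by omega), mul_zero]

end Pool.Agent.H853R2.Skolem
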