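import Mathlib

set_option autoImplicit false

namespace Pool.Agent.H853R2.Skolem

section
variable {α β : Type*} [Primcodable α] [Primcodable β]

theorem CP.comp {p : β → Prop} {f : α → β} (hp : ComputablePred p) (hf : Computable f) :
    ComputablePred (fun a => p (f a)) := by
  classical
  obtain ⟨_, h⟩ := hp
  exact (h.comp hf).computablePred

theorem CP.and {p q : α → Prop} (hp : ComputablePred p) (hq : ComputablePred q) :
    ComputablePred (fun a => p a ∧ q a) := by
  obtain ⟨_, h⟩ := hp
  obtain ⟨_, h'⟩ := hq
  exact ((Primrec.and.to_comp.comp h h').of_eq (by intro a; simp)).computablePred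

theorem CP.or {p q : α → Prop} (hp : ComputablePred p) (hq : ComputablePred q) :
    ComputablePred (fun a => p a ∨ q a) := by
  obtain ⟨_, h⟩ := hp
  obtain ⟨_, h'⟩ := hq
  exact ((Primrec.or.to_comp.comp h h').of_eq (by intro a; simp)).computablePred

theorem CP.not {p : α → Prop} (hp : ComputablePred p) :
    ComputablePred (fun a => ¬ p a) := ComputablePred.not hp

theorem CP.rel₂ {R : ℕ → ℕ → Prop} (hR : PrimrecRel R) {f g : α → ℕ} (hf : Computable f)
    (hg : Computable g) : ComputablePred (fun a => R (f a) (g a)) := by
  obtain ⟨_, h⟩ := hR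
  have h2 : Computable (fun q : ℕ × ℕ => decide (R q.1 q.2)) := h.to_comp
  exact (h2.comp (hf.pair hg)).computablePred

theorem CP.le {f g : α → ℕ} (hf : Computable f) (hg : Computable g) :
    ComputablePred (fun a => f a ≤ g a) := CP.rel₂ Primrec.nat_le hf hg

theorem CP.lt {f g : α → ℕ} (hf : Computable f) (hg : Computable g) :
    ComputablePred (fun a => f a < g a) := CP.rel₂ Primrec.nat_lt hf hg

theorem CP.eq {f g : α → ℕ} (hf : Computable f) (hg : Computable g) :
    ComputablePred (fun a => f a = g a) := CP.rel₂ Primrec.eq hf hg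

/-- bounded existential quantifier -/
theorem CP.bex {f : α → ℕ} {p : α → ℕ → Prop} (hf : Computable f)
    (hp : ComputablePred (fun q : α × ℕ => p q.1 q.2)) :
    ComputablePred (fun a => ∃ k < f a, p a k) := by
  classical
  have hp' := hp.decide
  have h : Computable (fun a => (Nat.rec false (fun k acc => acc || decide (p a k)) (f a) : Bool)) := by
    refine Computable.nat_rec (h := fun a (q : ℕ × Bool) => q.2 || decide (p a q.1))
      hf (Computable.const false) ?_
    unfold Computable₂
    refine Primrec.or.to_comp.comp (Computable.snd.comp Computable.snd) ?_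
    exact hp'.comp (Computable.fst.pair (Computable.fst.comp Computable.snd))
  refine (h.of_eq ?_).computablePred
  intro a
  induction f a with
  | zero => simp
  | succ n ih =>
    simp only [ih]
    rw [Bool.eq_iff_iff]
    simp only [Bool.or_eq_true, decide_eq_true_eq]
    constructor
    · rintro (⟨k, hk, h⟩ | h)
      · exact ⟨k, by omega, h⟩
      · exact ⟨n, by omega, h⟩
    · rintro ⟨k, hk, h⟩
      rcases Nat.lt_succ_iff_lt_or_eq.1 hk with h1 | h1
      · exact Or.inl ⟨k, h1, h⟩
      · subst h1; exact Or.inr h

/-- bounded universal quantifier -/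
theorem CP.ball {f : α → ℕ} {p : α → ℕ → Prop} (hf : Computable f)
    (hp : ComputablePred (fun q : α × ℕ => p q.1 q.2)) :
    ComputablePred (fun a => ∀ k < f a, p a k) := by
  have h := CP.not (CP.bex (p := fun a k => ¬ p a k) hf (CP.not hp))
  refine h.of_eq ?_
  intro a
  push Not
  rfl

theorem comp_add {f g : α → ℕ} (hf : Computable f) (hg : Computable g) :
    Computable (fun a => f a + g a) := Primrec.nat_add.to_comp.comp hf hg

theorem comp_mul {f g : α → ℕ} (hf : Computable f) (hg : Computable g) :
    Computable (fun a => f a * g a) := Primrec.nat_mul.to_comp.comp hf hg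

theorem comp_max {f g : α → ℕ} (hf : Computable f) (hg : Computable g) :
    Computable (fun a => max (f a) (g a)) := Primrec.nat_max.to_comp.comp hf hg

theorem comp_min {f g : α → ℕ} (hf : Computable f) (hg : Computable g) :
    Computable (fun a => min (f a) (g a)) := Primrec.nat_min.to_comp.comp hf hg

theorem comp_sum {f : α → ℕ} {g : α → ℕ → ℕ} (hf : Computable f)
    (hg : Computable (fun q : α × ℕ => g q.1 q.2)) :
    Computable (fun a => ∑ k ∈ Finset.range (f a), g a k) := by
  have h : Computable (fun a => (Nat.rec 0 (fun k acc => acc + g a k) (f a) : ℕ)) := by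
    refine Computable.nat_rec (h := fun a (q : ℕ × ℕ) => q.2 + g a q.1) hf (Computable.const 0) ?_
    unfold Computable₂
    refine comp_add (Computable.snd.comp Computable.snd) ?_
    exact hg.comp (Computable.fst.pair (Computable.fst.comp Computable.snd))
  refine h.of_eq ?_
  intro a
  induction f a with
  | zero => simp
  | succ n ih => simp only [ih]; rw [Finset.sum_range_succ]

theorem primrec_factorial : Primrec Nat.factorial := by
  have h : Primrec (fun n : ℕ => (Nat.rec 1 (fun k acc => (k + 1) * acc) n : ℕ)) := by
    apply Primrec.nat_rec₁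
    exact (Primrec.nat_mul.comp (Primrec.succ.comp Primrec.fst) Primrec.snd :
      Primrec (fun q : ℕ × ℕ => (q.1 + 1) * q.2)).to₂
  refine h.of_eq ?_
  intro n
  induction n with
  | zero => rfl
  | succ n ih => simp only [ih, Nat.factorial_succ]

theorem primrec_pow : Primrec₂ (fun a b : ℕ => a ^ b) := by
  have h : Primrec₂ (fun a b : ℕ => (Nat.rec 1 (fun _ acc => acc * a) b : ℕ)) := by
    refine Primrec.nat_rec' (h := fun (ab : ℕ × ℕ) (q : ℕ × ℕ) => q.2 * ab.1)
      Primrec.snd (Primrec.const 1) ?_
    exact (Primrec.nat_mul.comp (Primrec.snd.comp Primrec.snd)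
      (Primrec.fst.comp Primrec.fst)).to₂
  refine h.of_eq ?_
  intro a b
  induction b with
  | zero => rfl
  | succ n ih => simp only [ih, pow_succ]

theorem comp_pow {f g : α → ℕ} (hf : Computable f) (hg : Computable g) :
    Computable (fun a => f a ^ g a) := primrec_pow.to_comp.comp hf hg

end

end Pool.Agent.H853R2.Skolem
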