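import Mathlib
import Pool.Agent.H853R2.Skolem.Comp

set_option autoImplicit false

namespace Pool.Agent.H853R2.Skolem

/-- A computable family of zero sets with computable structural data. -/
structure Fam (Z : ℕ → ℕ → Prop) (d L N : ℕ → ℕ) : Prop where
  hZ : ComputablePred (fun q : ℕ × ℕ => Z q.1 q.2)
  hd : Computable d
  hL : Computable L
  hN : Computable N
  hL1 : ∀ i, 1 ≤ L i
  h1 : ∀ i s, (∀ m < d i, Z i (s + L i * m)) → ∀ m, Z i (s + L i * m)
  h2 : ∀ i s s', d i ≤ s → d i ≤ s' → s % L i = s' % L i → (∀ m, Z i (s' + L i * m)) → Z i s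
  h3 : ∀ i (A : Finset ℕ), (∀ n ∈ A, d i ≤ n ∧ Z i n ∧ ∃ m, ¬ Z i (n + L i * m)) → A.card ≤ N i

section
variable {Z : ℕ → ℕ → Prop} {d L N : ℕ → ℕ}

/-- exceptional zero -/
def Exc (Z : ℕ → ℕ → Prop) (d L : ℕ → ℕ) (i n : ℕ) : Prop :=
  d i ≤ n ∧ Z i n ∧ ∃ m < d i, ¬ Z i (n + L i * m)

theorem exc_comp (h : Fam Z d L N) : ComputablePred (fun q : ℕ × ℕ => Exc Z d L q.1 q.2) := by
  unfold Exc
  apply CP.and (CP.le (h.hd.comp Computable.fst) Computable.snd)
  apply CP.and h.hZ
  refine CP.bex (p := fun (q : ℕ × ℕ) m => ¬ Z q.1 (q.2 + L q.1 * m)) (h.hd.comp Computable.fst) ?_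
  apply CP.not
  exact CP.comp (p := fun q : ℕ × ℕ => Z q.1 q.2) h.hZ
    ((Computable.fst.comp Computable.fst).pair
      (comp_add (Computable.snd.comp Computable.fst)
        (comp_mul (h.hL.comp (Computable.fst.comp Computable.fst)) Computable.snd)))

theorem zero_class_all (h : Fam Z d L N) (i n : ℕ) (hn : d i ≤ n)
    (h0 : ∀ m, Z i (n + L i * m)) (n' : ℕ) (hn' : d i ≤ n') (hmod : n' % L i = n % L i) :
    Z i n' := h.h2 i n' n hn' hn hmod h0

theorem main_nat (h : Fam Z d L N) (g : ℕ → ℕ) (hg : Computable g) (hmono : Monotone g)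
    (hunb : ∀ k, ∃ x, k ≤ g x) :
    ∃ S : Set ℕ, ∃ F : ℕ → ℕ, ComputablePred (fun n => n ∈ S) ∧ Computable F ∧
      (∀ x, {n | n ≤ x ∧ n ∉ S}.ncard ≤ g x) ∧
      (∀ s l : ℕ, 1 ≤ l → ∃ m, s + l * m ∈ S) ∧
      (∀ i, ∀ n ∈ S, Z i n → n ≤ F i ∨ ∀ m, Z i (n + L i * m)) ∧
      ComputablePred (fun i => ∃ n ∈ S, Z i n) := by
  classical
  -- the slower function
  set g' : ℕ → ℕ := fun x => min (g x) (Nat.sqrt x) with hg'
  have hg'c : Computable g' := comp_min hg Primrec.nat_sqrt.to_comp
  have hg'm : Monotone g' := fun a b hab => min_le_min (hmono hab) (Nat.sqrt_le_sqrt hab)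
  have hg'u : ∀ k, ∃ x, k ≤ g' x := by
    intro k
    obtain ⟨x, hx⟩ := hunb k
    refine ⟨max x (k * k), le_min (hx.trans (hmono (le_max_left _ _))) ?_⟩
    rw [Nat.le_sqrt]
    exact le_max_right _ _
  -- partial sums of N
  set SN : ℕ → ℕ := fun i => ∑ k ∈ Finset.range (i + 1), N k with hSN
  have hSNc : Computable SN :=
    comp_sum (g := fun _ k => N k) Computable.succ (h.hN.comp Computable.snd)
  -- thresholds
  have hex : ∀ i, ∃ t, SN i ≤ g' t := fun i => hg'u (SN i)
  set T : ℕ → ℕ := fun i => Nat.find (hex i) with hT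
  have hTc : Computable T := by
    apply Computable.find (P := fun i t => SN i ≤ g' t)
    exact CP.le (hSNc.comp Computable.fst) (hg'c.comp Computable.snd)
  have hTs : ∀ i, SN i ≤ g' (T i) := fun i => Nat.find_spec (hex i)
  set Bad : ℕ → Prop := fun n => ∃ i < n + 1, T i ≤ n ∧ Exc Z d L i n with hBad
  have hBadc : ComputablePred Bad := by
    refine CP.bex (f := fun n => n + 1) (p := fun n i => T i ≤ n ∧ Exc Z d L i n) Computable.succ ?_
    apply CP.and
    · exact CP.le (hTc.comp Computable.snd) Computable.fst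
    · exact CP.comp (p := fun q : ℕ × ℕ => Exc Z d L q.1 q.2) (exc_comp h)
        (Computable.snd.pair Computable.fst)
  set S : Set ℕ := {n | ¬ Bad n} with hS
  have hSc : ComputablePred (fun n => n ∈ S) := CP.not hBadc
  -- counting
  have hcount : ∀ x, {n | n ≤ x ∧ n ∉ S}.ncard ≤ g' x := by
    intro x
    have hfin : {n | n ≤ x ∧ n ∉ S}.Finite := (Set.finite_Iic x).subset (fun n hn => hn.1)
    rw [Set.ncard_eq_toFinset_card _ hfin]
    set A := hfin.toFinset with hA
    have hAm : ∀ n ∈ A, n ≤ x ∧ Bad n := by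
      intro n hn
      rw [hA, Set.Finite.mem_toFinset] at hn
      exact ⟨hn.1, not_not.1 hn.2⟩
    by_cases hne : ∃ i, i ≤ x ∧ T i ≤ x
    · -- largest such index
      set I := (Finset.range (x + 1)).filter (fun i => T i ≤ x) with hI
      have hIne : I.Nonempty := by
        obtain ⟨i, hi, hi'⟩ := hne
        exact ⟨i, by rw [hI, Finset.mem_filter, Finset.mem_range]; exact ⟨by omega, hi'⟩⟩
      set i0 := I.max' hIne with hi0
      have hi0m : i0 ∈ I := Finset.max'_mem _ _
      have hsub : A ⊆ (Finset.range (i0 + 1)).biUnion (fun i => A.filter (fun n => Exc Z d L i n)) := by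
        intro n hn
        obtain ⟨hnx, i, hi, hTi, hE⟩ := hAm n hn
        rw [Finset.mem_biUnion]
        refine ⟨i, ?_, ?_⟩
        · rw [Finset.mem_range]
          have : i ∈ I := by
            rw [hI, Finset.mem_filter, Finset.mem_range]; exact ⟨by omega, by omega⟩
          have := Finset.le_max' I i this
          omega
        · rw [Finset.mem_filter]; exact ⟨hn, hE⟩
      calc A.card ≤ _ := Finset.card_le_card hsub
        _ ≤ ∑ i ∈ Finset.range (i0 + 1), (A.filter (fun n => Exc Z d L i n)).card :=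
            Finset.card_biUnion_le
        _ ≤ ∑ i ∈ Finset.range (i0 + 1), N i := by
            apply Finset.sum_le_sum
            intro i _
            apply h.h3 i
            intro n hn
            rw [Finset.mem_filter] at hn
            obtain ⟨_, a, b, m, _, hm⟩ := hn
            exact ⟨a, b, m, hm⟩
        _ = SN i0 := rfl
        _ ≤ g' (T i0) := hTs i0
        _ ≤ g' x := hg'm (by rw [hI, Finset.mem_filter] at hi0m; exact hi0m.2)
    · have : A = ∅ := by
        apply Finset.eq_empty_of_forall_notMem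
        intro n hn
        obtain ⟨hnx, i, hi, hTi, hE⟩ := hAm n hn
        exact hne ⟨i, by omega, by omega⟩
      rw [this]; simp
  have hAP : ∀ s l : ℕ, 1 ≤ l → ∃ m, s + l * m ∈ S := by
    intro s l hl
    by_contra hcon
    push Not at hcon
    set M := s + l with hM
    have h1 := (hcount (s + l * M)).trans (min_le_right _ _)
    have hfin : {n | n ≤ s + l * M ∧ n ∉ S}.Finite := (Set.finite_Iic _).subset (fun n hn => hn.1)
    have h2 : ((Finset.range (M + 1)).image (fun m => s + l * m) : Set ℕ) ⊆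
        {n | n ≤ s + l * M ∧ n ∉ S} := by
      intro n hn
      simp only [Finset.coe_image, Set.mem_image, Finset.coe_range, Set.mem_Iio] at hn
      obtain ⟨m, hm, rfl⟩ := hn
      refine ⟨?_, hcon m⟩
      have : l * m ≤ l * M := Nat.mul_le_mul_left _ (by omega)
      omega
    have h3 := Set.ncard_le_ncard h2 hfin
    rw [Set.ncard_coe_finset, Finset.card_image_of_injective _ (by
      intro a b hab
      simp only at hab
      have : l * a = l * b := by omega
      exact Nat.eq_of_mul_eq_mul_left (by omega) this), Finset.card_range] at h3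
    have h4 : M + 1 ≤ Nat.sqrt (s + l * M) := h3.trans h1
    rw [Nat.le_sqrt] at h4
    have h5 : s + l * M ≤ M + M * M := by
      have : l * M ≤ M * M := Nat.mul_le_mul_right _ (by omega)
      omega
    have h6 : (M + 1) * (M + 1) = M * M + 2 * M + 1 := by ring
    omega
  set F : ℕ → ℕ := fun i => max (max i (T i)) (d i) with hF
  have hFc : Computable F := comp_max (comp_max Computable.id hTc) h.hd
  have hzero : ∀ i, ∀ n ∈ S, Z i n → n ≤ F i ∨ ∀ m, Z i (n + L i * m) := by
    intro i n hn hz
    by_cases hle : n ≤ F i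
    · exact Or.inl hle
    right
    have hgt : F i < n := not_le.1 hle
    have a1 : i ≤ F i := (le_max_left _ _).trans (le_max_left _ _)
    have a2 : T i ≤ F i := (le_max_right _ _).trans (le_max_left _ _)
    have a3 : d i ≤ F i := le_max_right _ _
    apply h.h1
    by_contra hcon
    push Not at hcon
    obtain ⟨m, hm, hm'⟩ := hcon
    exact hn ⟨i, by omega, by omega, by omega, hz, m, hm, hm'⟩
  refine ⟨S, F, hSc, hFc, fun x => (hcount x).trans (min_le_left _ _), hAP, hzero, ?_⟩
  -- decision
  have hdec : ComputablePred (fun i : ℕ => (∃ r < L i, ∀ m < d i, Z i (d i + r + L i * m)) ∨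
      (∃ n < F i + 1, n ∈ S ∧ Z i n)) := by
    apply CP.or
    · refine CP.bex (p := fun i r => ∀ m < d i, Z i (d i + r + L i * m)) h.hL ?_
      refine CP.ball (p := fun (q : ℕ × ℕ) m => Z q.1 (d q.1 + q.2 + L q.1 * m))
        (h.hd.comp Computable.fst) ?_
      exact CP.comp (p := fun q : ℕ × ℕ => Z q.1 q.2) h.hZ
        ((Computable.fst.comp Computable.fst).pair
          (comp_add (comp_add (h.hd.comp (Computable.fst.comp Computable.fst))
            (Computable.snd.comp Computable.fst))
          (comp_mul (h.hL.comp (Computable.fst.comp Computable.fst)) Computable.snd)))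
    · refine CP.bex (f := fun i => F i + 1) (p := fun i n => n ∈ S ∧ Z i n)
        (Computable.succ.comp hFc) ?_
      exact CP.and (CP.comp hSc Computable.snd) h.hZ
  refine hdec.of_eq ?_
  intro i
  constructor
  · rintro (⟨r, hr, hm⟩ | ⟨n, _, hn, hz⟩)
    · obtain ⟨m, hmS⟩ := hAP (d i + r) (L i) (h.hL1 i)
      exact ⟨_, hmS, h.h1 i (d i + r) hm m⟩
    · exact ⟨n, hn, hz⟩
  · rintro ⟨n, hn, hz⟩
    by_cases hle : n ≤ F i
    · exact Or.inr ⟨n, by omega, hn, hz⟩
    left
    have h4 : ∀ m, Z i (n + L i * m) := by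
      rcases hzero i n hn hz with h4 | h4
      · exact absurd h4 hle
      · exact h4
    have a3 : d i ≤ F i := le_max_right _ _
    refine ⟨(n - d i) % L i, Nat.mod_lt _ (h.hL1 i), ?_⟩
    intro m _
    apply zero_class_all h i n (by omega) h4
    · omega
    · have e1 := Nat.div_add_mod (n - d i) (L i)
      have e2 : n = d i + (n - d i) % L i + L i * ((n - d i) / L i) := by omega
      rw [Nat.add_mul_mod_self_left]
      conv_rhs => rw [e2, Nat.add_mul_mod_self_left]

end

end Pool.Agent.H853R2.Skolem
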