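import Mathlib
import Pool.Agent.H853R2.Skolem.Diag
import Pool.Agent.H853R2.Skolem.Count

set_option autoImplicit false

namespace Pool.Agent.H853R2.Skolem

open Encodable

section
variable {α : Type*} [Primcodable α]

/-- lift a function on `α` to codes -/
def lft (d : α → ℕ) (c : ℕ) (i : ℕ) : ℕ := Option.casesOn (decode (α := α) i) c d

theorem lft_comp {d : α → ℕ} (hd : Computable d) (c : ℕ) : Computable (lft d c) := by
  unfold lft
  exact Computable.option_casesOn Computable.decode (Computable.const c)
    (hd.comp Computable.snd).to₂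

theorem lft_encode (d : α → ℕ) (c : ℕ) (a : α) : lft d c (encode a) = d a := by
  simp [lft]

def lftP (Z : α → ℕ → Prop) (i n : ℕ) : Prop := ∃ a, decode (α := α) i = some a ∧ Z a n

theorem lftP_encode (Z : α → ℕ → Prop) (a : α) (n : ℕ) : lftP Z (encode a) n ↔ Z a n := by
  simp [lftP]

theorem lftP_comp {Z : α → ℕ → Prop} (hZ : ComputablePred (fun q : α × ℕ => Z q.1 q.2)) :
    ComputablePred (fun q : ℕ × ℕ => lftP Z q.1 q.2) := by
  classical
  have h : Computable (fun q : ℕ × ℕ =>
      (Option.casesOn (decode (α := α) q.1) false (fun a => decide (Z a q.2)) : Bool)) := by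
    refine Computable.option_casesOn (Computable.decode.comp Computable.fst) (Computable.const false) ?_
    exact hZ.decide.comp (Computable.snd.pair (Computable.snd.comp Computable.fst))
  refine (h.of_eq ?_).computablePred
  intro q
  unfold lftP
  cases hq : decode (α := α) q.1 with
  | none => simp
  | some a => simp

/-- Master theorem: a computable family of integer sequences, each satisfying a bounded linear
recurrence with computable bounds. -/
theorem master (f : α → ℕ → ℤ) (dd K G : α → ℕ) (hf : ComputablePred (fun q : α × ℕ => f q.1 q.2 = 0))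
    (hdd : Computable dd) (hK : Computable K) (hG : Computable G)
    (hB : ∀ a, Bd (f a) (dd a) (K a) (G a))
    (g : ℕ → ℕ) (hg : Computable g) (hmono : Monotone g) (hunb : ∀ k, ∃ x, k ≤ g x) :
    ∃ S : Set ℕ, ∃ F : α → ℕ, ∃ L : α → ℕ, ComputablePred (fun n => n ∈ S) ∧ Computable F ∧
      Computable L ∧ (∀ a, 1 ≤ L a) ∧
      (∀ x, {n | n ≤ x ∧ n ∉ S}.ncard ≤ g x) ∧
      (∀ s l : ℕ, 1 ≤ l → ∃ m, s + l * m ∈ S) ∧
      (∀ a, ∀ n ∈ S, f a n = 0 → n ≤ F a ∨ ∀ m, f a (n + L a * m) = 0) ∧
      ComputablePred (fun a => ∃ n ∈ S, f a n = 0) := by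
  classical
  set L : α → ℕ := fun a => ((2 * (K a + 2)) ^ (dd a)).factorial with hL
  have hLc : Computable L := by
    refine primrec_factorial.to_comp.comp (comp_pow ?_ hdd)
    exact comp_mul (Computable.const 2) (comp_add hK (Computable.const 2))
  have hL1 : ∀ a, 1 ≤ L a := fun a => Nat.factorial_pos _
  have hgood : ∀ a, Good (f a) (dd a) (G a) (L a) := by
    intro a
    obtain ⟨p, hp, hp1, hp2⟩ := Nat.exists_prime_lt_and_le_two_mul (K a + 2) (by omega)
    obtain ⟨L0, h1, h2, h3⟩ := good_of_bd (hB a) hp (by omega) (by omega)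
    apply h3
    apply Nat.dvd_factorial (by omega)
    exact h2.trans (Nat.pow_le_pow_left hp2 _)
  set N : α → ℕ := fun a => NB (dd a) (G a) (L a) with hN
  have hNc : Computable N := by
    rw [hN]
    unfold NB
    refine comp_mul (comp_add (comp_mul (Computable.const 2) (comp_mul hG ?_)) (Computable.const 1)) hLc
    exact comp_add (comp_add (comp_add hdd hLc) (comp_mul hLc hdd)) (Computable.const 1)
  have hfam : Fam (lftP (fun a n => f a n = 0)) (lft dd 1) (lft L 1) (lft N 0) := by
    have case : ∀ i, (decode (α := α) i = none) ∨ ∃ a, decode (α := α) i = some a := by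
      intro i
      cases h : decode (α := α) i with
      | none => exact Or.inl rfl
      | some a => exact Or.inr ⟨a, rfl⟩
    refine ⟨lftP_comp hf, lft_comp hdd _, lft_comp hLc _, lft_comp hNc _, ?_, ?_, ?_, ?_⟩
    · intro i
      rcases case i with h | ⟨a, h⟩
      · simp [lft, h]
      · simp only [lft, h]; exact hL1 a
    · intro i s hm m
      rcases case i with h | ⟨a, h⟩
      · have := hm 0 (by simp [lft, h])
        simp [lftP, h] at this
      · simp only [lft, h, lftP, Option.some.injEq, exists_eq_left'] at hm ⊢
        exact (hgood a).2.1 s hm m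
    · intro i s s' h1 h2 h3 h4
      rcases case i with h | ⟨a, h⟩
      · have := h4 0
        simp [lftP, h] at this
      · simp only [lft, h, lftP, Option.some.injEq, exists_eq_left'] at h1 h2 h3 h4 ⊢
        exact zero_class (hL1 a) (hgood a) s s' h1 h2 h3 h4
    · intro i A hA
      rcases case i with h | ⟨a, h⟩
      · have : A = ∅ := by
          apply Finset.eq_empty_of_forall_notMem
          intro n hn
          have := (hA n hn).2.1
          simp [lftP, h] at this
        rw [this]; simp
      · simp only [lft, h, lftP, Option.some.injEq, exists_eq_left'] at hA ⊢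
        exact exc_count (hL1 a) (hgood a) A hA
  obtain ⟨S, F, hS, hF, hcount, hAP, hz, hdec⟩ := main_nat hfam g hg hmono hunb
  refine ⟨S, fun a => F (encode a), L, hS, hF.comp Computable.encode, hLc, hL1, hcount, hAP, ?_, ?_⟩
  · intro a n hn h0
    have := hz (encode a) n hn ((lftP_encode _ a n).2 h0)
    simpa only [lftP_encode, lft_encode] using this
  · refine (CP.comp hdec Computable.encode).of_eq ?_
    intro a
    simp only [lftP_encode]

end

end Pool.Agent.H853R2.Skolem
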