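import Mathlib

set_option autoImplicit false

namespace Pool.Agent.H853R2.Skolem

open Polynomial

/-- `ℓ¹` norm of an integer polynomial -/
noncomputable def nrm (P : ℤ[X]) : ℤ := P.sum (fun _ a => |a|)

theorem nrm_eq (P : ℤ[X]) (N : ℕ) (h : P.natDegree < N) :
    nrm P = ∑ i ∈ Finset.range N, |P.coeff i| := by
  unfold nrm
  rw [Polynomial.sum_over_range' P (by intro n; simp) N h]

theorem nrm_nonneg (P : ℤ[X]) : 0 ≤ nrm P := by
  rw [nrm_eq P _ (Nat.lt_succ_self _)]
  exact Finset.sum_nonneg (fun _ _ => abs_nonneg _)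

theorem nrm_add (P Q : ℤ[X]) : nrm (P + Q) ≤ nrm P + nrm Q := by
  set N := max (P + Q).natDegree (max P.natDegree Q.natDegree) + 1 with hN
  rw [nrm_eq (P + Q) N (by omega), nrm_eq P N (by omega), nrm_eq Q N (by omega),
    ← Finset.sum_add_distrib]
  apply Finset.sum_le_sum
  intro i _
  rw [coeff_add]
  exact abs_add_le _ _

theorem nrm_neg (P : ℤ[X]) : nrm (-P) = nrm P := by
  rw [nrm_eq (-P) (P.natDegree + 1) (by rw [natDegree_neg]; omega), nrm_eq P (P.natDegree + 1) (by omega)]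
  apply Finset.sum_congr rfl
  intro i _
  rw [coeff_neg, abs_neg]

theorem nrm_zero : nrm 0 = 0 := by simp [nrm]

theorem nrm_sum {ι : Type*} (s : Finset ι) (f : ι → ℤ[X]) : nrm (∑ i ∈ s, f i) ≤ ∑ i ∈ s, nrm (f i) := by
  classical
  induction s using Finset.induction_on with
  | empty => simp [nrm_zero]
  | insert a s ha ih =>
    rw [Finset.sum_insert ha, Finset.sum_insert ha]
    exact (nrm_add _ _).trans (by linarith)

theorem nrm_monomial (n : ℕ) (a : ℤ) : nrm (monomial n a) = |a| := by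
  unfold nrm
  rw [Polynomial.sum_monomial_index]
  simp

theorem nrm_mul (P Q : ℤ[X]) : nrm (P * Q) ≤ nrm P * nrm Q := by
  conv_lhs => rw [P.as_sum_range' (P.natDegree + 1) (Nat.lt_succ_self _),
    Q.as_sum_range' (Q.natDegree + 1) (Nat.lt_succ_self _)]
  rw [Finset.sum_mul_sum]
  refine (nrm_sum _ _).trans ?_
  rw [nrm_eq P (P.natDegree + 1) (by omega), nrm_eq Q (Q.natDegree + 1) (by omega),
    Finset.sum_mul_sum]
  apply Finset.sum_le_sum
  intro i _
  refine (nrm_sum _ _).trans ?_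
  apply Finset.sum_le_sum
  intro j _
  rw [monomial_mul_monomial, nrm_monomial, abs_mul]

theorem nrm_one : nrm 1 = 1 := by
  have : (1 : ℤ[X]) = monomial 0 1 := by simp
  rw [this, nrm_monomial]; simp

theorem nrm_prod {ι : Type*} (s : Finset ι) (f : ι → ℤ[X]) : nrm (∏ i ∈ s, f i) ≤ ∏ i ∈ s, nrm (f i) := by
  classical
  induction s using Finset.induction_on with
  | empty => simp [nrm_one]
  | insert a s ha ih =>
    rw [Finset.prod_insert ha, Finset.prod_insert ha]
    exact (nrm_mul _ _).trans (mul_le_mul_of_nonneg_left ih (nrm_nonneg _))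

theorem coeff_le_nrm (P : ℤ[X]) (i : ℕ) : |P.coeff i| ≤ nrm P := by
  rw [nrm_eq P (max P.natDegree i + 1) (by omega)]
  exact Finset.single_le_sum (f := fun i => |P.coeff i|) (fun _ _ => abs_nonneg _)
    (Finset.mem_range.2 (by omega))

theorem nrm_charpoly {Q : ℕ} (M : Matrix (Fin Q) (Fin Q) ℤ) (H : ℕ) (hM : ∀ i j, |M i j| ≤ H) :
    nrm M.charpoly ≤ (Q.factorial : ℤ) * (1 + H) ^ Q := by
  unfold Matrix.charpoly
  rw [Matrix.det_apply]
  refine (nrm_sum _ _).trans ?_
  have hent : ∀ i j, nrm (M.charmatrix i j) ≤ 1 + H := by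
    intro i j
    by_cases hij : i = j
    · subst hij
      rw [Matrix.charmatrix_apply_eq]
      have : (X - C (M i i) : ℤ[X]) = monomial 1 1 + -(monomial 0 (M i i)) := by
        rw [monomial_zero_left, ← X, sub_eq_add_neg]
      rw [this]
      refine (nrm_add _ _).trans ?_
      rw [nrm_neg, nrm_monomial, nrm_monomial]
      have := hM i i
      simp only [abs_one]
      linarith
    · rw [Matrix.charmatrix_apply_ne _ _ _ hij, nrm_neg, ← monomial_zero_left, nrm_monomial]
      have := hM i j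
      linarith
  have hterm : ∀ σ : Equiv.Perm (Fin Q),
      nrm (Equiv.Perm.sign σ • ∏ i, M.charmatrix (σ i) i) ≤ (1 + (H : ℤ)) ^ Q := by
    intro σ
    have h1 : nrm (Equiv.Perm.sign σ • ∏ i, M.charmatrix (σ i) i) = nrm (∏ i, M.charmatrix (σ i) i) := by
      rcases Int.units_eq_one_or (Equiv.Perm.sign σ) with h | h
      · rw [h, one_smul]
      · rw [h, Units.neg_smul, one_smul, nrm_neg]
    rw [h1]
    refine (nrm_prod _ _).trans ?_
    calc ∏ i : Fin Q, nrm (M.charmatrix (σ i) i) ≤ ∏ _i : Fin Q, (1 + (H : ℤ)) :=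
          Finset.prod_le_prod (fun i _ => nrm_nonneg _) (fun i _ => hent _ _)
      _ = (1 + (H : ℤ)) ^ Q := by simp
  calc ∑ σ : Equiv.Perm (Fin Q), nrm (Equiv.Perm.sign σ • ∏ i, M.charmatrix (σ i) i)
      ≤ ∑ _σ : Equiv.Perm (Fin Q), (1 + (H : ℤ)) ^ Q := Finset.sum_le_sum (fun σ _ => hterm σ)
    _ = (Q.factorial : ℤ) * (1 + H) ^ Q := by
        simp [Fintype.card_perm]

end Pool.Agent.H853R2.Skolem
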