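import Mathlib
import Pool.Agent.H853R2.Skolem.Alpha
import Pool.Agent.H853R2.Skolem.Nrm

set_option autoImplicit false

namespace Pool.Agent.H853R2.Skolem

open Polynomial

/-- The morphism of the free monoid over `ℕ` given by a table of images; letters outside the table
are erased. -/
def morph (g : List (List ℕ)) (w : List ℕ) : List ℕ := w.flatMap (fun a => g.getD a [])

/-- the growth sequence -/
def growth (g : List (List ℕ)) (u : List ℕ) (n : ℕ) : ℕ := ((morph g)^[n] u).length

/-- weight of a word: sum of (letter + 1) -/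
def tw (w : List ℕ) : ℕ := w.foldr (fun a s => a + 1 + s) 0

/-- weight of a table -/
def tt (g : List (List ℕ)) : ℕ := g.foldr (fun w s => tw w + s) 0

theorem tw_mem {w : List ℕ} {a : ℕ} (h : a ∈ w) : a < tw w := by
  induction w with
  | nil => simp at h
  | cons b w ih =>
    have e : tw (b :: w) = b + 1 + tw w := rfl
    rw [e]
    rcases List.mem_cons.1 h with h | h
    · omega
    · have := ih h; omega

theorem tw_length (w : List ℕ) : w.length ≤ tw w := by
  induction w with
  | nil => simp [tw]
  | cons b w ih =>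
    have e : tw (b :: w) = b + 1 + tw w := rfl
    rw [e, List.length_cons]; omega

theorem tt_mem {g : List (List ℕ)} {w : List ℕ} (h : w ∈ g) : tw w ≤ tt g := by
  induction g with
  | nil => simp at h
  | cons b g ih =>
    have e : tt (b :: g) = tw b + tt g := rfl
    rw [e]
    rcases List.mem_cons.1 h with h | h
    · rw [h]; omega
    · have := ih h; omega

theorem tt_getD (g : List (List ℕ)) (a : ℕ) : tw (g.getD a []) ≤ tt g := by
  by_cases h : a < g.length
  · rw [List.getD_eq_getElem _ _ h]; exact tt_mem (List.getElem_mem h)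
  · rw [List.getD_eq_default _ _ (by omega)]; simp [tw]

section
variable (g : List (List ℕ)) (Q : ℕ)

/-- Parikh vector -/
def psi (w : List ℕ) : Fin Q → ℤ := fun b => (w.count (b : ℕ) : ℤ)

/-- incidence matrix -/
def mat : Matrix (Fin Q) (Fin Q) ℤ := fun b a => ((g.getD (a : ℕ) []).count (b : ℕ) : ℤ)

theorem psi_morph (w : List ℕ) (hw : ∀ a ∈ w, a < Q) :
    psi Q (morph g w) = (mat g Q).mulVec (psi Q w) := by
  induction w with
  | nil =>
    funext b
    simp [psi, morph, Matrix.mulVec, dotProduct]
  | cons a w ih =>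
    have ha : a < Q := hw a (by simp)
    have ih' := ih (fun b hb => hw b (by simp [hb]))
    have e1 : morph g (a :: w) = g.getD a [] ++ morph g w := by simp [morph]
    have e2 : psi Q (a :: w) = psi Q w + Pi.single (⟨a, ha⟩ : Fin Q) (1 : ℤ) := by
      funext b
      simp only [psi, List.count_cons, Pi.add_apply, Pi.single_apply]
      by_cases hb : b = ⟨a, ha⟩
      · subst hb; simp
      · rw [if_neg hb]
        have : ¬ (a = (b : ℕ)) := by
          intro h; apply hb; ext; exact h.symm
        simp [this]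
    rw [e1, e2, Matrix.mulVec_add, ← ih']
    funext b
    simp only [psi, List.count_append, Pi.add_apply, Matrix.mulVec_single_one, mat, Matrix.col_apply]
    push_cast
    ring

theorem length_eq (w : List ℕ) (hw : ∀ a ∈ w, a < Q) : (w.length : ℤ) = ∑ b, psi Q w b := by
  induction w with
  | nil => simp [psi]
  | cons a w ih =>
    have ha : a < Q := hw a (by simp)
    have ih' := ih (fun b hb => hw b (by simp [hb]))
    have e2 : psi Q (a :: w) = psi Q w + Pi.single (⟨a, ha⟩ : Fin Q) (1 : ℤ) := by
      funext b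
      simp only [psi, List.count_cons, Pi.add_apply, Pi.single_apply]
      by_cases hb : b = ⟨a, ha⟩
      · subst hb; simp
      · rw [if_neg hb]
        have : ¬ (a = (b : ℕ)) := by
          intro h; apply hb; ext; exact h.symm
        simp [this]
    rw [e2]
    simp only [Pi.add_apply, Finset.sum_add_distrib, List.length_cons, Nat.cast_add, Nat.cast_one,
      ih']
    congr 1
    simp

variable (hg : tt g ≤ Q)
include hg

theorem morph_lt (w : List ℕ) : ∀ a ∈ morph g w, a < Q := by
  intro a ha
  simp only [morph, List.mem_flatMap] at ha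
  obtain ⟨b, _, hb⟩ := ha
  exact lt_of_lt_of_le (tw_mem hb) ((tt_getD g b).trans hg)

theorem iter_lt (u : List ℕ) (hu : tw u ≤ Q) (n : ℕ) : ∀ a ∈ (morph g)^[n] u, a < Q := by
  cases n with
  | zero => intro a ha; exact lt_of_lt_of_le (tw_mem ha) hu
  | succ n => rw [Function.iterate_succ_apply']; exact morph_lt g Q hg _

theorem psi_iter (u : List ℕ) (hu : tw u ≤ Q) (n : ℕ) :
    psi Q ((morph g)^[n] u) = ((mat g Q) ^ n).mulVec (psi Q u) := by
  induction n with
  | zero => simp
  | succ n ih =>
    rw [Function.iterate_succ_apply', psi_morph g Q _ (iter_lt g Q hg u hu n), ih,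
      Matrix.mulVec_mulVec, ← pow_succ']

theorem growth_eq (u : List ℕ) (hu : tw u ≤ Q) (n : ℕ) :
    (growth g u n : ℤ) = ∑ b, ((mat g Q) ^ n).mulVec (psi Q u) b := by
  rw [growth, length_eq Q _ (iter_lt g Q hg u hu n), psi_iter g Q hg u hu n]

theorem phi_growth (u : List ℕ) (hu : tw u ≤ Q) (P : ℤ[X]) :
    phi (fun n => (growth g u n : ℤ)) P = ∑ b, (aeval (mat g Q) P).mulVec (psi Q u) b := by
  induction P using Polynomial.induction_on' with
  | add p q hp hq =>
    rw [map_add, hp, hq, map_add, Matrix.add_mulVec]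
    simp [Finset.sum_add_distrib]
  | monomial n a =>
    rw [phi_monomial, growth_eq g Q hg u hu n, aeval_monomial, Finset.mul_sum]
    apply Finset.sum_congr rfl
    intro b _
    rw [← Algebra.smul_def, Matrix.smul_mulVec, Pi.smul_apply, smul_eq_mul]

theorem ann_growth (u : List ℕ) (hu : tw u ≤ Q) :
    Ann (mat g Q).charpoly (fun n => (growth g u n : ℤ)) := by
  intro R
  rw [phi_growth g Q hg u hu, map_mul, Matrix.aeval_self_charpoly, zero_mul]
  simp

theorem mat_le (i j : Fin Q) : |mat g Q i j| ≤ Q := by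
  unfold mat
  rw [abs_of_nonneg (by positivity)]
  have h1 : (g.getD (j : ℕ) []).count (i : ℕ) ≤ (g.getD (j : ℕ) []).length := List.count_le_length
  have h2 := tw_length (g.getD (j : ℕ) [])
  have h3 := tt_getD g (j : ℕ)
  exact_mod_cast (by omega : (g.getD (j : ℕ) []).count (i : ℕ) ≤ Q)

theorem growth_le (u : List ℕ) (hu : tw u ≤ Q) (n : ℕ) : growth g u n ≤ Q ^ (n + 1) := by
  induction n with
  | zero => rw [zero_add, pow_one]; exact (tw_length u).trans hu
  | succ n ih =>
    unfold growth at ih ⊢
    rw [Function.iterate_succ_apply']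
    set w := (morph g)^[n] u
    have h : ∀ w : List ℕ, (morph g w).length ≤ Q * w.length := by
      intro w
      induction w with
      | nil => simp [morph]
      | cons a w ihw =>
        have e1 : morph g (a :: w) = g.getD a [] ++ morph g w := by simp [morph]
        rw [e1, List.length_append, List.length_cons, mul_add, mul_one]
        have h2 := tw_length (g.getD a [])
        have h3 := tt_getD g a
        omega
    calc (morph g w).length ≤ Q * w.length := h w
      _ ≤ Q * Q ^ (n + 1) := Nat.mul_le_mul_left _ ih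
      _ = Q ^ (n + 1 + 1) := by rw [pow_succ Q (n + 1), mul_comm]

end

/-- an instance: two D0L systems -/
abbrev DInst := (List ℕ × List (List ℕ)) × (List ℕ × List (List ℕ))

/-- the size -/
def dsz (p : DInst) : ℕ := tw p.1.1 + tt p.1.2 + tw p.2.1 + tt p.2.2 + 1

/-- difference of the growth sequences -/
def dseq (p : DInst) (n : ℕ) : ℤ := (growth p.1.2 p.1.1 n : ℤ) - growth p.2.2 p.2.1 n

theorem ann_mul_left {P f} (R : ℤ[X]) (h : Ann P f) : Ann (R * P) f := by
  intro T
  rw [mul_comm R P, mul_assoc]
  exact h _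

theorem phi_sub (f h : ℕ → ℤ) (P : ℤ[X]) : phi (fun n => f n - h n) P = phi f P - phi h P := by
  induction P using Polynomial.induction_on' with
  | add p q hp hq => rw [map_add, map_add, map_add, hp, hq]; ring
  | monomial n a => rw [phi_monomial, phi_monomial, phi_monomial]; ring

def dK (Q : ℕ) : ℕ := (Q.factorial * (1 + Q) ^ Q) * (Q.factorial * (1 + Q) ^ Q)

theorem bd_dseq (p : DInst) : Bd (dseq p) (2 * dsz p) (dK (dsz p)) (dsz p) := by
  set Q := dsz p with hQ
  have h11 : tw p.1.1 ≤ Q := by rw [hQ]; unfold dsz; omega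
  have h12 : tt p.1.2 ≤ Q := by rw [hQ]; unfold dsz; omega
  have h21 : tw p.2.1 ≤ Q := by rw [hQ]; unfold dsz; omega
  have h22 : tt p.2.2 ≤ Q := by rw [hQ]; unfold dsz; omega
  set A := (mat p.1.2 Q).charpoly with hA
  set B := (mat p.2.2 Q).charpoly with hB
  have hAm : A.Monic := Matrix.charpoly_monic _
  have hBm : B.Monic := Matrix.charpoly_monic _
  have hAd : A.natDegree = Q := by rw [hA, Matrix.charpoly_natDegree_eq_dim]; simp
  have hBd : B.natDegree = Q := by rw [hB, Matrix.charpoly_natDegree_eq_dim]; simp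
  set P := A * B with hP
  have hPm : P.Monic := hAm.mul hBm
  have hPd : P.natDegree = 2 * Q := by rw [hP, hAm.natDegree_mul hBm, hAd, hBd]; ring
  have hann : Ann P (dseq p) := by
    intro R
    unfold dseq
    rw [phi_sub, hP]
    have h1 : phi (fun n => (growth p.1.2 p.1.1 n : ℤ)) (A * B * R) = 0 := by
      rw [mul_assoc]
      exact ann_growth p.1.2 Q h12 p.1.1 h11 _
    have h2 : phi (fun n => (growth p.2.2 p.2.1 n : ℤ)) (A * B * R) = 0 := by
      rw [mul_comm A B, mul_assoc]
      exact ann_growth p.2.2 Q h22 p.2.1 h21 _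
    rw [h1, h2, sub_zero]
  obtain ⟨P1, hP1⟩ : X ^ P.natTrailingDegree ∣ P := by
    rw [X_pow_dvd_iff]
    intro d hd
    exact coeff_eq_zero_of_lt_natTrailingDegree hd
  set j := P.natTrailingDegree with hj
  have hP1m : P1.Monic := by
    have := hPm
    rw [hP1] at this
    exact (monic_X_pow j).of_mul_monic_left this
  have hc : P1.coeff 0 = P.coeff j := by
    conv_rhs => rw [hP1]
    simp [coeff_X_pow_mul']
  refine ⟨j, P1, hP1m, ?_, ?_, ?_, ?_, ?_⟩
  · have : P.natDegree = j + P1.natDegree := by
      conv_lhs => rw [hP1]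
      rw [(monic_X_pow j).natDegree_mul hP1m, natDegree_X_pow]
    omega
  · rw [hc]
    exact trailingCoeff_nonzero_iff_nonzero.2 hPm.ne_zero
  · rw [hc]
    refine (coeff_le_nrm P j).trans ?_
    rw [hP]
    refine (nrm_mul A B).trans ?_
    have h1 := nrm_charpoly (mat p.1.2 Q) Q (mat_le p.1.2 Q h12)
    have h2 := nrm_charpoly (mat p.2.2 Q) Q (mat_le p.2.2 Q h22)
    have e : ((dK Q : ℕ) : ℤ) = ((Q.factorial : ℤ) * (1 + Q) ^ Q) * ((Q.factorial : ℤ) * (1 + Q) ^ Q) := by
      unfold dK; push_cast; ring
    rw [e]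
    exact mul_le_mul h1 h2 (nrm_nonneg _) (by positivity)
  · rw [← hP1]; exact hann
  · intro n
    have h1 := growth_le p.1.2 Q h12 p.1.1 h11 n
    have h2 := growth_le p.2.2 Q h22 p.2.1 h21 n
    unfold dseq
    rw [abs_le]
    have h1' : (growth p.1.2 p.1.1 n : ℤ) ≤ (Q : ℤ) ^ (n + 1) := by exact_mod_cast h1
    have h2' : (growth p.2.2 p.2.1 n : ℤ) ≤ (Q : ℤ) ^ (n + 1) := by exact_mod_cast h2
    have h3 : (0 : ℤ) ≤ growth p.1.2 p.1.1 n := Int.natCast_nonneg _
    have h4 : (0 : ℤ) ≤ growth p.2.2 p.2.1 n := Int.natCast_nonneg _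
    constructor <;> linarith

/-! computability -/

theorem primrec_morph : Primrec₂ morph := by
  unfold morph
  refine Primrec.list_flatMap Primrec.snd ?_
  exact (Primrec.list_getD []).comp (Primrec.fst.comp Primrec.fst) Primrec.snd

theorem primrec_growth : Primrec (fun q : (List ℕ × List (List ℕ)) × ℕ => growth q.1.2 q.1.1 q.2) := by
  unfold growth
  refine Primrec.list_length.comp ?_
  refine Primrec.nat_iterate (f := fun q : (List ℕ × List (List ℕ)) × ℕ => q.2)
    (g := fun q => q.1.1) (h := fun q w => morph q.1.2 w) Primrec.snd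
    (Primrec.fst.comp Primrec.fst) ?_
  have h1 : Primrec (fun r : ((List ℕ × List (List ℕ)) × ℕ) × List ℕ => r.1.1.2) :=
    Primrec.snd.comp (Primrec.fst.comp Primrec.fst)
  exact primrec_morph.comp h1 Primrec.snd

theorem primrec_tw : Primrec tw := by
  unfold tw
  refine Primrec.list_foldr (f := fun l : List ℕ => l) (g := fun _ => 0)
    (h := fun _ (r : ℕ × ℕ) => r.1 + 1 + r.2) Primrec.id (Primrec.const 0) ?_
  exact Primrec.nat_add.comp (Primrec.succ.comp (Primrec.fst.comp Primrec.snd))
    (Primrec.snd.comp Primrec.snd)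

theorem primrec_tt : Primrec tt := by
  unfold tt
  refine Primrec.list_foldr (f := fun l : List (List ℕ) => l) (g := fun _ => 0)
    (h := fun _ (r : List ℕ × ℕ) => tw r.1 + r.2) Primrec.id (Primrec.const 0) ?_
  exact Primrec.nat_add.comp (primrec_tw.comp (Primrec.fst.comp Primrec.snd))
    (Primrec.snd.comp Primrec.snd)

theorem comp_dsz : Computable dsz := by
  unfold dsz
  refine comp_add (comp_add (comp_add (comp_add ?_ ?_) ?_) ?_) (Computable.const 1)
  · exact (primrec_tw.comp (Primrec.fst.comp Primrec.fst)).to_comp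
  · exact (primrec_tt.comp (Primrec.snd.comp Primrec.fst)).to_comp
  · exact (primrec_tw.comp (Primrec.fst.comp Primrec.snd)).to_comp
  · exact (primrec_tt.comp (Primrec.snd.comp Primrec.snd)).to_comp

theorem comp_growth : Computable (fun q : (List ℕ × List (List ℕ)) × ℕ => growth q.1.2 q.1.1 q.2) :=
  primrec_growth.to_comp

theorem comp_growth1 : Computable (fun q : DInst × ℕ => growth q.1.1.2 q.1.1.1 q.2) := by
  have hp1 : Computable (fun q : DInst × ℕ => (q.1.1, q.2)) :=
    (Computable.fst.comp Computable.fst).pair Computable.snd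
  have h := Computable.comp comp_growth hp1
  exact h

theorem comp_growth2 : Computable (fun q : DInst × ℕ => growth q.1.2.2 q.1.2.1 q.2) := by
  have hp1 : Computable (fun q : DInst × ℕ => (q.1.2, q.2)) :=
    (Computable.snd.comp Computable.fst).pair Computable.snd
  have h := Computable.comp comp_growth hp1
  exact h

theorem dseq_zero_iff (p : DInst) (n : ℕ) :
    dseq p n = 0 ↔ growth p.1.2 p.1.1 n = growth p.2.2 p.2.1 n := by
  unfold dseq
  omega

theorem dseq_comp : ComputablePred (fun q : DInst × ℕ => dseq q.1 q.2 = 0) := by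
  have h : ComputablePred (fun q : DInst × ℕ => growth q.1.1.2 q.1.1.1 q.2 = growth q.1.2.2 q.1.2.1 q.2) :=
    CP.eq comp_growth1 comp_growth2
  exact h.of_eq (fun q => (dseq_zero_iff q.1 q.2).symm)

theorem comp_dK : Computable (fun p => dK (dsz p)) := by
  unfold dK
  have h : Computable (fun p => (dsz p).factorial * (1 + dsz p) ^ (dsz p)) :=
    comp_mul (primrec_factorial.to_comp.comp comp_dsz)
      (comp_pow (comp_add (Computable.const 1) comp_dsz) comp_dsz)
  exact comp_mul h h

end Pool.Agent.H853R2.Skolem
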