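import Mathlib
import Pool.Agent.H853R2.Skolem.Alpha

set_option autoImplicit false

namespace Pool.Agent.H853R2.Skolem

open Polynomial

/-- integer coded by a pair of naturals -/
def val (q : ℕ × ℕ) : ℤ := (q.1 : ℤ) - (q.2 : ℤ)

/-- An instance: coefficients `c_1, …, c_d` and initial values `u_0, …, u_{d-1}`. -/
abbrev Inst := List (ℕ × ℕ) × List (ℕ × ℕ)

/-- well-formed: as many coefficients as initial values, and the last coefficient exists and is
nonzero -/
def WF (p : Inst) : Prop := p.1.length = p.2.length ∧ ∃ q ∈ p.1.getLast?, (q.1 : ℤ) ≠ (q.2 : ℤ)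

/-- `u` is the linear recurrence sequence with data `p`. -/
def IsSol (p : Inst) (u : ℕ → ℤ) : Prop :=
  (∀ i < p.2.length, u i = val (p.2.getD i (0, 0))) ∧
  ∀ n : ℕ, u (n + p.1.length) =
    ∑ i ∈ Finset.range p.1.length, val (p.1.getD i (0, 0)) * u (n + p.1.length - 1 - i)

def addP (x y : ℕ × ℕ) : ℕ × ℕ := (x.1 + y.1, x.2 + y.2)
def mulP (x y : ℕ × ℕ) : ℕ × ℕ := (x.1 * y.1 + x.2 * y.2, x.1 * y.2 + x.2 * y.1)

theorem val_addP (x y : ℕ × ℕ) : val (addP x y) = val x + val y := by
  simp [val, addP]; ring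

theorem val_mulP (x y : ℕ × ℕ) : val (mulP x y) = val x * val y := by
  simp [val, mulP]; ring

def dotP (c h : List (ℕ × ℕ)) (n : ℕ) : ℕ × ℕ :=
  Nat.rec (0, 0) (fun i acc => addP acc (mulP (c.getD i (0, 0)) (h.getD i (0, 0)))) n

theorem val_dotP (c h : List (ℕ × ℕ)) (n : ℕ) :
    val (dotP c h n) = ∑ i ∈ Finset.range n, val (c.getD i (0, 0)) * val (h.getD i (0, 0)) := by
  induction n with
  | zero => simp [dotP, val]
  | succ n ih =>
    rw [Finset.sum_range_succ, ← ih, ← val_mulP, ← val_addP]
    rfl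

def hist (p : Inst) (n : ℕ) : List (ℕ × ℕ) :=
  Nat.rec p.2.reverse (fun _ h => dotP p.1 h p.1.length :: h) n

def term (p : Inst) (n : ℕ) : ℕ × ℕ := (hist p n).getD (p.1.length - 1) (0, 0)

theorem hist_succ (p : Inst) (n : ℕ) :
    hist p (n + 1) = dotP p.1 (hist p n) p.1.length :: hist p n := rfl

theorem hist_shift (p : Inst) (n i k : ℕ) :
    (hist p (n + k)).getD (i + k) (0, 0) = (hist p n).getD i (0, 0) := by
  induction k with
  | zero => rfl
  | succ k ih =>
    rw [← add_assoc, hist_succ, ← add_assoc, List.getD_cons_succ, ih]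

theorem hist_eq (p : Inst) (n i : ℕ) (hi : i < p.1.length) :
    (hist p n).getD i (0, 0) = term p (n + p.1.length - 1 - i) := by
  unfold term
  have h := hist_shift p n i (p.1.length - 1 - i)
  rw [← h]
  congr 1
  · congr 1; omega
  · omega

theorem isSol_term (p : Inst) (hlen : p.1.length = p.2.length) (hd : 1 ≤ p.1.length) :
    IsSol p (fun n => val (term p n)) := by
  constructor
  · intro i hi
    have h := hist_shift p 0 (p.1.length - 1 - i) i
    have e1 : p.1.length - 1 - i + i = p.1.length - 1 := by omega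
    rw [e1, zero_add] at h
    simp only
    unfold term
    rw [h]
    change val ((p.2.reverse).getD (p.1.length - 1 - i) (0, 0)) = _
    congr 1
    rw [List.getD_eq_getElem _ _ (by simp; omega), List.getD_eq_getElem _ _ hi, List.getElem_reverse]
    congr 1
    omega
  · intro n
    have h := hist_shift p (n + 1) 0 (p.1.length - 1)
    simp only
    have e0 : term p (n + p.1.length) = dotP p.1 (hist p n) p.1.length := by
      unfold term
      have e1 : n + 1 + (p.1.length - 1) = n + p.1.length := by omega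
      rw [e1, zero_add] at h
      rw [h, hist_succ]
      rfl
    rw [e0, val_dotP]
    apply Finset.sum_congr rfl
    intro i hi
    rw [Finset.mem_range] at hi
    rw [hist_eq p n i hi]

theorem isSol_unique (p : Inst) (hlen : p.1.length = p.2.length)
    (u v : ℕ → ℤ) (hu : IsSol p u) (hv : IsSol p v) : u = v := by
  funext n
  induction n using Nat.strong_induction_on with
  | _ n ih =>
    by_cases hn : n < p.2.length
    · rw [hu.1 n hn, hv.1 n hn]
    · have e1 : n = (n - p.1.length) + p.1.length := by omega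
      rw [e1, hu.2, hv.2]
      apply Finset.sum_congr rfl
      intro i hi
      rw [Finset.mem_range] at hi
      rw [ih _ (by omega)]

theorem wf_pos {p : Inst} (h : WF p) : 1 ≤ p.1.length := by
  obtain ⟨_, q, hq, _⟩ := h
  rcases hp : p.1 with _ | ⟨a, l⟩
  · rw [hp] at hq; simp at hq
  · simp

theorem wf_last {p : Inst} (h : WF p) : val (p.1.getD (p.1.length - 1) (0, 0)) ≠ 0 := by
  have hpos := wf_pos h
  obtain ⟨_, q, hq, hne⟩ := h
  have h1 : p.1 ≠ [] := by intro h; rw [h] at hpos; simp at hpos
  rw [List.getLast?_eq_getLast_of_ne_nil h1, Option.mem_def, Option.some.injEq] at hq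
  rw [List.getD_eq_getElem _ _ (by omega), ← List.getLast_eq_getElem h1, hq]
  unfold val
  omega

/-- total size of a list of pairs -/
def sz (l : List (ℕ × ℕ)) : ℕ := l.foldr (fun q s => q.1 + q.2 + s) 0

theorem sum_val_le (l : List (ℕ × ℕ)) :
    ∑ i ∈ Finset.range l.length, |val (l.getD i (0, 0))| ≤ (sz l : ℤ) := by
  induction l with
  | nil => simp [sz]
  | cons q l ih =>
    rw [List.length_cons, Finset.sum_range_succ']
    simp only [List.getD_cons_succ, List.getD_cons_zero]
    have e : (sz (q :: l) : ℤ) = q.1 + q.2 + sz l := by simp [sz]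
    rw [e]
    have : |val q| ≤ (q.1 : ℤ) + q.2 := by
      unfold val
      rw [abs_le]
      constructor <;> omega
    linarith

theorem val_le (l : List (ℕ × ℕ)) (i : ℕ) (hi : i < l.length) :
    |val (l.getD i (0, 0))| ≤ (sz l : ℤ) := by
  refine le_trans ?_ (sum_val_le l)
  exact Finset.single_le_sum (f := fun i => |val (l.getD i (0, 0))|) (fun i _ => abs_nonneg _)
    (Finset.mem_range.2 hi)

/-- the sequence attached to an instance (constant `1` if the instance is ill-formed) -/
noncomputable def seq (p : Inst) (n : ℕ) : ℤ := by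
  classical exact if WF p then val (term p n) else 1

theorem seq_wf {p : Inst} (h : WF p) : seq p = fun n => val (term p n) := by
  funext n; simp [seq, h]

theorem seq_isSol {p : Inst} (h : WF p) : IsSol p (seq p) := by
  rw [seq_wf h]; exact isSol_term p h.1 (wf_pos h)

/-- characteristic polynomial -/
noncomputable def cpoly (p : Inst) : ℤ[X] :=
  X ^ p.1.length - ∑ i ∈ Finset.range p.1.length, C (val (p.1.getD i (0, 0))) * X ^ (p.1.length - 1 - i)

theorem cpoly_deg (p : Inst) : (∑ i ∈ Finset.range p.1.length,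
        C (val (p.1.getD i (0, 0))) * X ^ (p.1.length - 1 - i) : ℤ[X]).degree < (p.1.length : WithBot ℕ) := by
  apply lt_of_le_of_lt (degree_sum_le _ _)
  rw [Finset.sup_lt_iff (by exact WithBot.bot_lt_coe _)]
  intro i hi
  rw [Finset.mem_range] at hi
  refine lt_of_le_of_lt (degree_C_mul_X_pow_le _ _) ?_
  exact_mod_cast (by omega : p.1.length - 1 - i < p.1.length)

theorem cpoly_monic (p : Inst) : (cpoly p).Monic := monic_X_pow_sub (cpoly_deg p)

theorem cpoly_natDegree (p : Inst) : (cpoly p).natDegree = p.1.length := by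
  have h1 : (cpoly p).degree = (p.1.length : WithBot ℕ) := by
    unfold cpoly
    rw [degree_sub_eq_left_of_degree_lt (by rw [degree_X_pow]; exact cpoly_deg p), degree_X_pow]
  exact natDegree_eq_of_degree_eq_some h1

theorem cpoly_coeff_zero (p : Inst) (hpos : 1 ≤ p.1.length) :
    (cpoly p).coeff 0 = - val (p.1.getD (p.1.length - 1) (0, 0)) := by
  unfold cpoly
  rw [coeff_sub, finsetSum_coeff, coeff_X_pow]
  rw [if_neg (by omega), zero_sub]
  congr 1
  rw [Finset.sum_eq_single (p.1.length - 1)]
  · simp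
  · intro i hi hne
    rw [Finset.mem_range] at hi
    rw [coeff_C_mul_X_pow, if_neg (by omega)]
  · intro h; exact absurd (Finset.mem_range.2 (by omega)) h

theorem cpoly_ann (p : Inst) (f : ℕ → ℤ) (hsol : IsSol p f) : Ann (cpoly p) f := by
  apply ann_of_pow
  intro n
  unfold cpoly
  rw [sub_mul, map_sub, ← pow_add, phi_X_pow, Finset.sum_mul, map_sum, add_comm p.1.length n,
    hsol.2 n, sub_eq_zero]
  apply Finset.sum_congr rfl
  intro i hi
  rw [Finset.mem_range] at hi
  rw [mul_assoc, phi_C_mul, ← pow_add, phi_X_pow]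
  congr 2
  omega

theorem sol_bound (p : Inst) (f : ℕ → ℤ) (hlen : p.1.length = p.2.length) (hsol : IsSol p f) (G : ℤ)
    (hG1 : 1 ≤ G) (hc : ∑ i ∈ Finset.range p.1.length, |val (p.1.getD i (0, 0))| ≤ G)
    (ha : ∀ i < p.2.length, |val (p.2.getD i (0, 0))| ≤ G) (n : ℕ) : |f n| ≤ G ^ (n + 1) := by
  induction n using Nat.strong_induction_on with
  | _ n ih =>
    by_cases hn : n < p.2.length
    · rw [hsol.1 n hn]
      refine (ha n hn).trans ?_
      calc G = G ^ 1 := (pow_one G).symm
        _ ≤ G ^ (n + 1) := pow_le_pow_right₀ hG1 (by omega)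
    · obtain ⟨k, hk⟩ : ∃ k, n = k + p.1.length := ⟨n - p.1.length, by omega⟩
      rw [hk, hsol.2]
      calc |∑ i ∈ Finset.range p.1.length, val (p.1.getD i (0, 0)) * f (k + p.1.length - 1 - i)|
          ≤ ∑ i ∈ Finset.range p.1.length, |val (p.1.getD i (0, 0)) * f (k + p.1.length - 1 - i)| :=
            Finset.abs_sum_le_sum_abs _ _
        _ ≤ ∑ i ∈ Finset.range p.1.length, |val (p.1.getD i (0, 0))| * G ^ n := by
            apply Finset.sum_le_sum
            intro i hi
            rw [Finset.mem_range] at hi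
            rw [abs_mul]
            apply mul_le_mul_of_nonneg_left _ (abs_nonneg _)
            refine (ih (k + p.1.length - 1 - i) (by omega)).trans ?_
            exact pow_le_pow_right₀ hG1 (by omega)
        _ = (∑ i ∈ Finset.range p.1.length, |val (p.1.getD i (0, 0))|) * G ^ n := by
            rw [Finset.sum_mul]
        _ ≤ G * G ^ n := by
            apply mul_le_mul_of_nonneg_right hc (by positivity)
        _ = G ^ (k + p.1.length + 1) := by rw [← hk, pow_succ]; ring

theorem bd_seq (p : Inst) :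
    Bd (seq p) (p.1.length + 1) (sz p.1 + 1) (sz p.1 + sz p.2 + 1) := by
  by_cases hwf : WF p
  · have hpos := wf_pos hwf
    have hsol := seq_isSol hwf
    refine ⟨0, cpoly p, cpoly_monic p, by rw [cpoly_natDegree]; omega, ?_, ?_, ?_, ?_⟩
    · rw [cpoly_coeff_zero p hpos]
      exact neg_ne_zero.2 (wf_last hwf)
    · rw [cpoly_coeff_zero p hpos, abs_neg]
      have := val_le p.1 (p.1.length - 1) (by omega)
      push_cast
      linarith
    · rw [pow_zero, one_mul]
      exact cpoly_ann p _ hsol
    · intro n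
      apply sol_bound p _ hwf.1 hsol
      · push_cast; linarith [Int.natCast_nonneg (sz p.1), Int.natCast_nonneg (sz p.2)]
      · refine (sum_val_le p.1).trans ?_
        push_cast; linarith [Int.natCast_nonneg (sz p.2)]
      · intro i hi
        refine (val_le p.2 i hi).trans ?_
        push_cast; linarith [Int.natCast_nonneg (sz p.1)]
  · have hs : seq p = fun _ => 1 := by funext n; simp [seq, hwf]
    rw [hs]
    refine ⟨0, X - 1, ?_, ?_, ?_, ?_, ?_, ?_⟩
    · have : (X - 1 : ℤ[X]) = X - C 1 := by simp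
      rw [this]; exact monic_X_sub_C 1
    · have : (X - 1 : ℤ[X]) = X - C 1 := by simp
      rw [this, natDegree_X_sub_C]; omega
    · simp
    · simp
    · rw [pow_zero, one_mul]
      apply ann_of_pow
      intro n
      rw [sub_mul, one_mul, map_sub, ← pow_succ', phi_X_pow, phi_X_pow, sub_self]
    · intro n
      simp only [abs_one]
      exact_mod_cast Nat.one_le_pow _ _ (by omega)

/-! computability -/

theorem primrec_addP : Primrec₂ addP := by
  unfold addP
  exact Primrec.pair (Primrec.nat_add.comp (Primrec.fst.comp Primrec.fst) (Primrec.fst.comp Primrec.snd))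
    (Primrec.nat_add.comp (Primrec.snd.comp Primrec.fst) (Primrec.snd.comp Primrec.snd))

theorem primrec_mulP : Primrec₂ mulP := by
  unfold mulP
  have a1 : Primrec (fun q : (ℕ × ℕ) × (ℕ × ℕ) => q.1.1) := Primrec.fst.comp Primrec.fst
  have a2 : Primrec (fun q : (ℕ × ℕ) × (ℕ × ℕ) => q.1.2) := Primrec.snd.comp Primrec.fst
  have b1 : Primrec (fun q : (ℕ × ℕ) × (ℕ × ℕ) => q.2.1) := Primrec.fst.comp Primrec.snd
  have b2 : Primrec (fun q : (ℕ × ℕ) × (ℕ × ℕ) => q.2.2) := Primrec.snd.comp Primrec.snd
  exact Primrec.pair (Primrec.nat_add.comp (Primrec.nat_mul.comp a1 b1) (Primrec.nat_mul.comp a2 b2))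
    (Primrec.nat_add.comp (Primrec.nat_mul.comp a1 b2) (Primrec.nat_mul.comp a2 b1))

theorem primrec_dotP : Primrec (fun q : (List (ℕ × ℕ) × List (ℕ × ℕ)) × ℕ => dotP q.1.1 q.1.2 q.2) := by
  unfold dotP
  refine Primrec.nat_rec' (f := fun q : (List (ℕ × ℕ) × List (ℕ × ℕ)) × ℕ => q.2)
    (h := fun (q : (List (ℕ × ℕ) × List (ℕ × ℕ)) × ℕ) (r : ℕ × (ℕ × ℕ)) =>
      addP r.2 (mulP (q.1.1.getD r.1 (0, 0)) (q.1.2.getD r.1 (0, 0))))
    Primrec.snd (Primrec.const (0, 0)) ?_
  refine primrec_addP.comp (Primrec.snd.comp Primrec.snd) (primrec_mulP.comp ?_ ?_)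
  · exact (Primrec.list_getD (0, 0)).comp (Primrec.fst.comp (Primrec.fst.comp Primrec.fst))
      (Primrec.fst.comp Primrec.snd)
  · exact (Primrec.list_getD (0, 0)).comp (Primrec.snd.comp (Primrec.fst.comp Primrec.fst))
      (Primrec.fst.comp Primrec.snd)

theorem primrec_hist : Primrec (fun q : Inst × ℕ => hist q.1 q.2) := by
  unfold hist
  refine Primrec.nat_rec' (f := fun q : Inst × ℕ => q.2)
    (h := fun (q : Inst × ℕ) (r : ℕ × List (ℕ × ℕ)) => dotP q.1.1 r.2 q.1.1.length :: r.2)
    Primrec.snd (Primrec.list_reverse.comp (Primrec.snd.comp Primrec.fst)) ?_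
  refine Primrec.list_cons.comp ?_ (Primrec.snd.comp Primrec.snd)
  exact primrec_dotP.comp (Primrec.pair (Primrec.pair (Primrec.fst.comp (Primrec.fst.comp Primrec.fst))
    (Primrec.snd.comp Primrec.snd))
    (Primrec.list_length.comp (Primrec.fst.comp (Primrec.fst.comp Primrec.fst))))

theorem primrec_term : Primrec (fun q : Inst × ℕ => term q.1 q.2) := by
  unfold term
  refine (Primrec.list_getD (0, 0)).comp primrec_hist ?_
  exact Primrec.nat_sub.comp (Primrec.list_length.comp (Primrec.fst.comp Primrec.fst)) (Primrec.const 1)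

theorem primrec_sz : Primrec sz := by
  unfold sz
  refine Primrec.list_foldr (f := fun l : List (ℕ × ℕ) => l) (g := fun _ => 0)
    (h := fun _ (r : (ℕ × ℕ) × ℕ) => r.1.1 + r.1.2 + r.2) Primrec.id (Primrec.const 0) ?_
  refine Primrec.nat_add.comp (Primrec.nat_add.comp ?_ ?_) (Primrec.snd.comp Primrec.snd)
  · exact Primrec.fst.comp (Primrec.fst.comp Primrec.snd)
  · exact Primrec.snd.comp (Primrec.fst.comp Primrec.snd)

theorem wf_iff (p : Inst) : WF p ↔ (p.1.length = p.2.length ∧ 1 ≤ p.1.length) ∧
    ¬ (p.1.getD (p.1.length - 1) (0, 0)).1 = (p.1.getD (p.1.length - 1) (0, 0)).2 := by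
  constructor
  · intro h
    refine ⟨⟨h.1, wf_pos h⟩, ?_⟩
    have := wf_last h
    unfold val at this
    omega
  · rintro ⟨⟨h1, h2⟩, h3⟩
    refine ⟨h1, ?_⟩
    have hne : p.1 ≠ [] := by intro h; rw [h] at h2; simp at h2
    refine ⟨p.1.getLast hne, ?_, ?_⟩
    · rw [List.getLast?_eq_getLast_of_ne_nil hne]; rfl
    · rw [List.getD_eq_getElem _ _ (by omega), ← List.getLast_eq_getElem hne] at h3
      exact_mod_cast h3

theorem wf_comp : ComputablePred WF := by
  have h0 : Computable (fun p : Inst => p.1.length) := (Primrec.list_length.comp Primrec.fst).to_comp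
  have h1 : Computable (fun p : Inst => p.2.length) := (Primrec.list_length.comp Primrec.snd).to_comp
  have h2 : Computable (fun p : Inst => p.1.getD (p.1.length - 1) (0, 0)) :=
    ((Primrec.list_getD (0, 0)).comp Primrec.fst (Primrec.nat_sub.comp
      (Primrec.list_length.comp Primrec.fst) (Primrec.const 1))).to_comp
  refine (CP.and (CP.and (CP.eq h0 h1) (CP.le (Computable.const 1) h0))
    (CP.not (CP.eq (Computable.fst.comp h2) (Computable.snd.comp h2)))).of_eq ?_
  intro p
  exact (wf_iff p).symm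

theorem seq_comp : ComputablePred (fun q : Inst × ℕ => seq q.1 q.2 = 0) := by
  have h0 : Computable (fun q : Inst × ℕ => term q.1 q.2) := primrec_term.to_comp
  refine (CP.and (CP.comp wf_comp Computable.fst) (CP.eq (Computable.fst.comp h0)
    (Computable.snd.comp h0))).of_eq ?_
  intro q
  unfold seq
  by_cases h : WF q.1
  · simp only [h, true_and, if_true, val]
    omega
  · simp [h]

end Pool.Agent.H853R2.Skolem
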