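import Mathlib
import Pool.Agent.H853R2.Skolem.LRS

set_option autoImplicit false

namespace Pool.Agent.H853R2.Skolem

open Encodable

/-- largest entry of a list of pairs -/
def mx (l : List (ℕ × ℕ)) : ℕ := l.foldr (fun q s => max (max q.1 q.2) s) 0

theorem mx_mem {l : List (ℕ × ℕ)} {q : ℕ × ℕ} (h : q ∈ l) : q.1 ≤ mx l ∧ q.2 ≤ mx l := by
  induction l with
  | nil => simp at h
  | cons b l ih =>
    have e : mx (b :: l) = max (max b.1 b.2) (mx l) := rfl
    rw [e]
    rcases List.mem_cons.1 h with h | h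
    · subst h; constructor
      · exact (le_max_left _ _).trans (le_max_left _ _)
      · exact (le_max_right _ _).trans (le_max_left _ _)
    · have := ih h
      exact ⟨this.1.trans (le_max_right _ _), this.2.trans (le_max_right _ _)⟩

theorem mx_le {l : List (ℕ × ℕ)} {H : ℕ} (h : ∀ q ∈ l, q.1 ≤ H ∧ q.2 ≤ H) : mx l ≤ H := by
  induction l with
  | nil => simp [mx]
  | cons b l ih =>
    have e : mx (b :: l) = max (max b.1 b.2) (mx l) := rfl
    rw [e]
    have hb := h b (by simp)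
    exact max_le (max_le hb.1 hb.2) (ih (fun q hq => h q (by simp [hq])))

/-- height -/
def ht (p : Inst) : ℕ := max (mx p.1) (mx p.2)

/-- size `(H+2)^k` -/
def size (p : Inst) : ℕ := (ht p + 2) ^ p.1.length

theorem val_abs_le {q : ℕ × ℕ} {H : ℕ} (h1 : q.1 ≤ H) (h2 : q.2 ≤ H) : |val q| ≤ H := by
  unfold val; rw [abs_le]; constructor <;> omega

theorem val_getD_le (l : List (ℕ × ℕ)) (i : ℕ) (H : ℕ) (h : mx l ≤ H) :
    |val (l.getD i (0, 0))| ≤ H := by
  by_cases hi : i < l.length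
  · rw [List.getD_eq_getElem _ _ hi]
    have := mx_mem (List.getElem_mem hi)
    exact val_abs_le (this.1.trans h) (this.2.trans h)
  · rw [List.getD_eq_default _ _ (by omega)]; simp [val]

theorem bd_explicit (p : Inst) (hwf : WF p) :
    Bd (seq p) p.1.length (ht p) (p.1.length * ht p + ht p + 1) := by
  have hpos := wf_pos hwf
  have hsol := seq_isSol hwf
  have m1 : mx p.1 ≤ ht p := le_max_left _ _
  have m2 : mx p.2 ≤ ht p := le_max_right _ _
  refine ⟨0, cpoly p, cpoly_monic p, by rw [cpoly_natDegree]; omega, ?_, ?_, ?_, ?_⟩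
  · rw [cpoly_coeff_zero p hpos]
    exact neg_ne_zero.2 (wf_last hwf)
  · rw [cpoly_coeff_zero p hpos, abs_neg]
    exact val_getD_le p.1 _ _ m1
  · rw [pow_zero, one_mul]
    exact cpoly_ann p _ hsol
  · intro n
    have hh : (0 : ℤ) ≤ ht p := Int.natCast_nonneg _
    have hl : (0 : ℤ) ≤ p.1.length := Int.natCast_nonneg _
    apply sol_bound p _ hwf.1 hsol
    · push_cast; nlinarith
    · calc ∑ i ∈ Finset.range p.1.length, |val (p.1.getD i (0, 0))|
          ≤ ∑ _i ∈ Finset.range p.1.length, (ht p : ℤ) :=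
            Finset.sum_le_sum (fun i _ => val_getD_le p.1 i _ m1)
        _ = p.1.length * ht p := by simp
        _ ≤ _ := by push_cast; nlinarith
    · intro i hi
      refine (val_getD_le p.2 i _ m2).trans ?_
      push_cast; nlinarith

/-- the universal period used by the algorithm -/
def bigL (p : Inst) : ℕ := ((2 * (ht p + 2)) ^ p.1.length).factorial

theorem bigL_pos (p : Inst) : 1 ≤ bigL p := Nat.factorial_pos _

/-- There is a small good period. -/
theorem small_period (p : Inst) (hwf : WF p) :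
    ∃ L0, 1 ≤ L0 ∧ L0 ≤ (2 * (ht p + 2)) ^ p.1.length ∧ L0 ∣ bigL p ∧
      ∀ L, L0 ∣ L → Good (seq p) p.1.length (p.1.length * ht p + ht p + 1) L := by
  obtain ⟨q, hq, hq1, hq2⟩ := Nat.exists_prime_lt_and_le_two_mul (ht p + 2) (by omega)
  obtain ⟨L0, h1, h2, h3⟩ := good_of_bd (bd_explicit p hwf) hq (by omega) (by omega)
  have h4 : L0 ≤ (2 * (ht p + 2)) ^ p.1.length := h2.trans (Nat.pow_le_pow_left hq2 _)
  exact ⟨L0, h1, h4, Nat.dvd_factorial (by omega) h4, h3⟩

/-- exceptional zeros of `p`, as detected by the algorithm -/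
def ExcP (p : Inst) (n : ℕ) : Prop :=
  WF p ∧ seq p n = 0 ∧ ∃ m < p.1.length, seq p (n + bigL p * m) ≠ 0

theorem size_ge (p : Inst) (hwf : WF p) : 2 ≤ size p ∧ 2 ^ p.1.length ≤ size p ∧ ht p + 2 ≤ size p ∧
    p.1.length < size p := by
  have hpos := wf_pos hwf
  have h1 : 2 ^ p.1.length ≤ size p := Nat.pow_le_pow_left (by omega) _
  have h2 : ht p + 2 ≤ size p := by
    calc ht p + 2 = (ht p + 2) ^ 1 := (pow_one _).symm
      _ ≤ _ := Nat.pow_le_pow_right (by omega) hpos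
  have h3 : p.1.length < 2 ^ p.1.length := Nat.lt_two_pow_self
  exact ⟨by omega, h1, h2, by omega⟩

/-- number of exceptional zeros is at most `size^13` -/
theorem exc_bound (p : Inst) (hwf : WF p) (A : Finset ℕ)
    (hA : ∀ n ∈ A, p.1.length ≤ n ∧ ExcP p n) : A.card ≤ size p ^ 13 := by
  obtain ⟨L0, h1, h2, h3, h4⟩ := small_period p hwf
  have hcount := exc_count h1 (h4 L0 dvd_rfl) A (by
    intro n hn
    obtain ⟨a, _, b, m, _, hm⟩ := hA n hn
    refine ⟨a, b, (bigL p / L0) * m, ?_⟩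
    rw [← mul_assoc, Nat.mul_div_cancel' h3]
    exact hm)
  refine hcount.trans ?_
  obtain ⟨s1, s2, s3, s4⟩ := size_ge p hwf
  set X := size p with hX
  set k := p.1.length with hk
  have hL : L0 ≤ X ^ 2 := by
    refine h2.trans ?_
    rw [mul_pow, pow_two]
    exact Nat.mul_le_mul s2 le_rfl
  have hG : k * ht p + ht p + 1 ≤ X ^ 2 := by
    have : (k + 1) * (ht p + 1) ≤ X * X := Nat.mul_le_mul (by omega) (by omega)
    nlinarith
  have hd : k + L0 + L0 * k + 1 ≤ X ^ 5 := by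
    have e1 : L0 * k ≤ X ^ 2 * X := Nat.mul_le_mul hL (by omega)
    have e2 : 4 ≤ X ^ 2 := by nlinarith
    have e3 : X ^ 2 ≤ X ^ 3 := Nat.pow_le_pow_right (by omega) (by omega)
    have e4 : X ≤ X ^ 3 := by
      calc X = X ^ 1 := (pow_one X).symm
        _ ≤ X ^ 3 := Nat.pow_le_pow_right (by omega) (by omega)
    have e5 : X ^ 2 * X = X ^ 3 := by ring
    have e6 : X ^ 5 = X ^ 2 * X ^ 3 := by ring
    have e7 : 4 * X ^ 3 ≤ X ^ 2 * X ^ 3 := Nat.mul_le_mul_right _ e2
    have e8 : 1 ≤ X ^ 3 := Nat.one_le_pow _ _ (by omega)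
    omega
  have hm : (k * ht p + ht p + 1) * (k + L0 + L0 * k + 1) ≤ X ^ 7 := by
    calc _ ≤ X ^ 2 * X ^ 5 := Nat.mul_le_mul hG hd
      _ = X ^ 7 := by ring
  have hm2 : 2 * ((k * ht p + ht p + 1) * (k + L0 + L0 * k + 1)) + 1 ≤ X ^ 11 := by
    have e1 : 1 ≤ X ^ 7 := Nat.one_le_pow _ _ (by omega)
    have e2 : X ^ 11 = X ^ 4 * X ^ 7 := by ring
    have e3 : 2 ^ 4 ≤ X ^ 4 := Nat.pow_le_pow_left s1 4
    have e4 : 2 ^ 4 * X ^ 7 ≤ X ^ 4 * X ^ 7 := Nat.mul_le_mul_right _ e3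
    omega
  unfold NB
  calc _ ≤ X ^ 11 * X ^ 2 := Nat.mul_le_mul hm2 hL
    _ = X ^ 13 := by ring

end Pool.Agent.H853R2.Skolem
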