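import Mathlib
import Pool.Agent.H853R2.Skolem.Explicit

set_option autoImplicit false

namespace Pool.Agent.H853R2.Skolem

open Encodable

/-! ### counting instances of bounded size -/

/-- all lists of pairs of length `k` with entries `≤ H` -/
def lists (k H : ℕ) : Finset (List (ℕ × ℕ)) :=
  (Fintype.piFinset (fun _ : Fin k => Finset.range (H + 1) ×ˢ Finset.range (H + 1))).image List.ofFn

theorem mem_lists {k H : ℕ} {l : List (ℕ × ℕ)} (hk : l.length = k) (h : mx l ≤ H) :
    l ∈ lists k H := by
  subst hk
  unfold lists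
  rw [Finset.mem_image]
  refine ⟨fun i => l.get i, ?_, List.ofFn_get l⟩
  rw [Fintype.mem_piFinset]
  intro i
  have := mx_mem (List.get_mem l i)
  rw [Finset.mem_product, Finset.mem_range, Finset.mem_range]
  exact ⟨by omega, by omega⟩

theorem card_lists (k H : ℕ) : (lists k H).card ≤ (H + 1) ^ (2 * k) := by
  unfold lists
  refine Finset.card_image_le.trans ?_
  rw [Fintype.card_piFinset]
  simp only [Finset.card_product, Finset.card_range, Finset.prod_const, Finset.card_univ,
    Fintype.card_fin]
  rw [pow_mul, pow_two]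

/-- maximal height for a given length -/
def maxH (X k : ℕ) : ℕ := Nat.findGreatest (fun H => (H + 2) ^ k ≤ X) X

/-- a finite set containing all instances of size at most `X` -/
def insts (X : ℕ) : Finset Inst :=
  (Finset.range X).biUnion (fun k => lists k (maxH X k) ×ˢ lists k (maxH X k))

theorem mem_insts {X : ℕ} {p : Inst} (hwf : WF p) (h : size p ≤ X) : p ∈ insts X := by
  obtain ⟨s1, s2, s3, s4⟩ := size_ge p hwf
  unfold insts
  rw [Finset.mem_biUnion]
  refine ⟨p.1.length, by rw [Finset.mem_range]; omega, ?_⟩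
  have hH : ht p ≤ maxH X p.1.length := by
    unfold maxH
    exact Nat.le_findGreatest (by omega) h
  rw [Finset.mem_product]
  exact ⟨mem_lists rfl ((le_max_left _ _).trans hH), mem_lists hwf.1.symm ((le_max_right _ _).trans hH)⟩

theorem card_insts (X : ℕ) (hX : 1 ≤ X) : (insts X).card ≤ X ^ 5 := by
  unfold insts
  refine Finset.card_biUnion_le.trans ?_
  calc ∑ k ∈ Finset.range X, (lists k (maxH X k) ×ˢ lists k (maxH X k)).card
      ≤ ∑ _k ∈ Finset.range X, X ^ 4 := by
        apply Finset.sum_le_sum
        intro k _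
        rw [Finset.card_product]
        have h1 := card_lists k (maxH X k)
        have h2 : (maxH X k + 1) ^ k ≤ X := by
          by_cases hP : (maxH X k + 2) ^ k ≤ X
          · exact (Nat.pow_le_pow_left (by omega) _).trans hP
          · have : maxH X k = 0 := by
              by_contra hne
              exact hP (Nat.findGreatest_of_ne_zero (P := fun H => (H + 2) ^ k ≤ X) rfl hne)
            rw [this]; simpa using hX
        calc (lists k (maxH X k)).card * (lists k (maxH X k)).card
            ≤ (maxH X k + 1) ^ (2 * k) * (maxH X k + 1) ^ (2 * k) := Nat.mul_le_mul h1 h1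
          _ = ((maxH X k + 1) ^ k) ^ 4 := by rw [← pow_add, ← pow_mul]; congr 1; ring
          _ ≤ X ^ 4 := Nat.pow_le_pow_left h2 4
    _ = X ^ 5 := by rw [Finset.sum_const, Finset.card_range, smul_eq_mul]; ring

/-! ### the set of exceptional indices -/

/-- `n` is bad if some instance with `size^C ≤ n` has an exceptional zero at `n` -/
def BadC (C n : ℕ) : Prop := ∃ p : Inst, size p ^ C ≤ n ∧ ExcP p n

theorem count_bad (C : ℕ) (hC : 1 ≤ C) (x : ℕ) : ({n | n ≤ x ∧ BadC C n}.ncard) ^ C ≤ x ^ 18 := by
  classical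
  set X := Nat.findGreatest (fun X => X ^ C ≤ x) x with hX
  have hfin : {n | n ≤ x ∧ BadC C n}.Finite := (Set.finite_Iic x).subset (fun n hn => hn.1)
  rw [Set.ncard_eq_toFinset_card _ hfin]
  set A := hfin.toFinset with hA
  have hAm : ∀ n ∈ A, n ≤ x ∧ BadC C n := by
    intro n hn
    rwa [hA, Set.Finite.mem_toFinset] at hn
  by_cases hAe : A = ∅
  · rw [hAe]; simp only [Finset.card_empty]; rw [zero_pow (by omega)]; exact Nat.zero_le _
  have hsz : ∀ n p, n ≤ x → size p ^ C ≤ n → WF p → size p ≤ X := by
    intro n p hn hp hwf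
    obtain ⟨s1, _⟩ := size_ge p hwf
    rw [hX]
    apply Nat.le_findGreatest
    · calc size p = size p ^ 1 := (pow_one _).symm
        _ ≤ size p ^ C := Nat.pow_le_pow_right (by omega) hC
        _ ≤ x := by omega
    · show size p ^ C ≤ x
      omega
  have hX1 : 1 ≤ X := by
    obtain ⟨n, hn⟩ := Finset.nonempty_iff_ne_empty.2 hAe
    obtain ⟨hn1, p, hp, hE⟩ := hAm n hn
    have := hsz n p hn1 hp hE.1
    obtain ⟨s1, _⟩ := size_ge p hE.1
    omega
  have hXC : X ^ C ≤ x := by
    exact Nat.findGreatest_of_ne_zero (P := fun X => X ^ C ≤ x) hX.symm (by omega)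
  have hsub : A ⊆ ((insts X).filter (fun p => WF p ∧ size p ≤ X)).biUnion
      (fun p => A.filter (fun n => p.1.length ≤ n ∧ ExcP p n)) := by
    intro n hn
    obtain ⟨hn1, p, hp, hE⟩ := hAm n hn
    obtain ⟨s1, s2, s3, s4⟩ := size_ge p hE.1
    rw [Finset.mem_biUnion]
    refine ⟨p, ?_, ?_⟩
    · rw [Finset.mem_filter]
      exact ⟨mem_insts hE.1 (hsz n p hn1 hp hE.1), hE.1, hsz n p hn1 hp hE.1⟩
    · rw [Finset.mem_filter]
      refine ⟨hn, ?_, hE⟩
      have : size p ≤ n := by
        calc size p = size p ^ 1 := (pow_one _).symm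
          _ ≤ size p ^ C := Nat.pow_le_pow_right (by omega) hC
          _ ≤ n := hp
      omega
  have hcard : A.card ≤ X ^ 18 := by
    calc A.card ≤ _ := Finset.card_le_card hsub
      _ ≤ ∑ p ∈ (insts X).filter (fun p => WF p ∧ size p ≤ X), (A.filter (fun n => p.1.length ≤ n ∧ ExcP p n)).card :=
          Finset.card_biUnion_le
      _ ≤ ∑ p ∈ (insts X).filter (fun p => WF p ∧ size p ≤ X), X ^ 13 := by
          apply Finset.sum_le_sum
          intro p hp
          rw [Finset.mem_filter] at hp
          refine (exc_bound p hp.2.1 _ ?_).trans (Nat.pow_le_pow_left hp.2.2 13)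
          intro n hn
          rw [Finset.mem_filter] at hn
          exact hn.2
      _ ≤ X ^ 5 * X ^ 13 := by
          rw [Finset.sum_const, smul_eq_mul]
          exact Nat.mul_le_mul_right _ ((Finset.card_filter_le _ _).trans (card_insts X hX1))
      _ = X ^ 18 := by ring
  calc A.card ^ C ≤ (X ^ 18) ^ C := Nat.pow_le_pow_left hcard C
    _ = (X ^ C) ^ 18 := by rw [← pow_mul, ← pow_mul, mul_comm]
    _ ≤ x ^ 18 := Nat.pow_le_pow_left hXC 18

/-! ### computability -/

/-- bound for codes of lists -/
def codeB (E k : ℕ) : ℕ := Nat.rec 0 (fun _ r => Nat.pair E r + 1) k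

theorem pair_mono {a b c d : ℕ} (h1 : a ≤ c) (h2 : b ≤ d) : Nat.pair a b ≤ Nat.pair c d := by
  have e1 : Nat.pair a b ≤ Nat.pair c b := by
    rcases h1.lt_or_eq with h | h
    · exact (Nat.pair_lt_pair_left b h).le
    · rw [h]
  have e2 : Nat.pair c b ≤ Nat.pair c d := by
    rcases h2.lt_or_eq with h | h
    · exact (Nat.pair_lt_pair_right c h).le
    · rw [h]
  exact e1.trans e2

theorem codeB_succ (E k : ℕ) : codeB E (k + 1) = Nat.pair E (codeB E k) + 1 := rfl

theorem codeB_mono (E : ℕ) {k n : ℕ} (h : k ≤ n) : codeB E k ≤ codeB E n := by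
  induction h with
  | refl => rfl
  | @step m _ ih =>
    rw [codeB_succ]
    have := Nat.right_le_pair E (codeB E m)
    exact ih.trans (this.trans (Nat.le_succ _))

theorem encode_list_le (E : ℕ) (l : List (ℕ × ℕ)) (h : ∀ q ∈ l, encode q ≤ E) :
    encode l ≤ codeB E l.length := by
  induction l with
  | nil => simp [codeB]
  | cons a l ih =>
    rw [Encodable.encode_list_cons, List.length_cons, codeB_succ]
    exact Nat.succ_le_succ (pair_mono (h a (by simp)) (ih (fun q hq => h q (by simp [hq]))))

/-- bound for codes of instances of size at most `n` -/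
def instB (n : ℕ) : ℕ := Nat.pair (codeB (Nat.pair n n) n) (codeB (Nat.pair n n) n) + 1

theorem encode_inst_lt (p : Inst) (hwf : WF p) (n : ℕ) (h : size p ≤ n) : encode p < instB n := by
  obtain ⟨s1, s2, s3, s4⟩ := size_ge p hwf
  have key : ∀ l : List (ℕ × ℕ), mx l ≤ n → l.length ≤ n → encode l ≤ codeB (Nat.pair n n) n := by
    intro l hm hl
    refine (encode_list_le (Nat.pair n n) l ?_).trans (codeB_mono _ hl)
    intro q hq
    have := mx_mem hq
    exact pair_mono (this.1.trans hm) (this.2.trans hm)
  have m1 : mx p.1 ≤ ht p := le_max_left _ _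
  have m2 : mx p.2 ≤ ht p := le_max_right _ _
  have hlen := hwf.1
  apply Nat.lt_succ_of_le
  exact pair_mono (key p.1 (by omega) (by omega)) (key p.2 (by omega) (by omega))

theorem comp_codeB : Primrec₂ codeB := by
  unfold codeB
  refine Primrec.nat_rec' (f := fun q : ℕ × ℕ => q.2) (g := fun _ => 0)
    (h := fun (q : ℕ × ℕ) (r : ℕ × ℕ) => Nat.pair q.1 r.2 + 1) Primrec.snd (Primrec.const 0) ?_
  exact Primrec.succ.comp (Primrec₂.natPair.comp (Primrec.fst.comp Primrec.fst)
    (Primrec.snd.comp Primrec.snd))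

theorem comp_instB : Computable instB := by
  unfold instB
  have h1 : Primrec (fun n : ℕ => codeB (Nat.pair n n) n) :=
    comp_codeB.comp (Primrec₂.natPair.comp Primrec.id Primrec.id) Primrec.id
  exact (Primrec.succ.comp (Primrec₂.natPair.comp h1 h1)).to_comp

theorem primrec_mx : Primrec mx := by
  unfold mx
  refine Primrec.list_foldr (f := fun l : List (ℕ × ℕ) => l) (g := fun _ => 0)
    (h := fun _ (r : (ℕ × ℕ) × ℕ) => max (max r.1.1 r.1.2) r.2) Primrec.id (Primrec.const 0) ?_
  refine Primrec.nat_max.comp (Primrec.nat_max.comp ?_ ?_) (Primrec.snd.comp Primrec.snd)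
  · exact Primrec.fst.comp (Primrec.fst.comp Primrec.snd)
  · exact Primrec.snd.comp (Primrec.fst.comp Primrec.snd)

theorem primrec_ht : Primrec ht :=
  Primrec.nat_max.comp (primrec_mx.comp Primrec.fst) (primrec_mx.comp Primrec.snd)

theorem primrec_len : Primrec (fun p : Inst => p.1.length) := Primrec.list_length.comp Primrec.fst

theorem primrec_size : Primrec size :=
  primrec_pow.comp (Primrec.nat_add.comp primrec_ht (Primrec.const 2)) primrec_len

theorem comp_bigL : Computable bigL := by
  unfold bigL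
  exact primrec_factorial.to_comp.comp (comp_pow (comp_mul (Computable.const 2)
    (comp_add primrec_ht.to_comp (Computable.const 2))) primrec_len.to_comp)

theorem comp_ExcP : ComputablePred (fun q : Inst × ℕ => ExcP q.1 q.2) := by
  unfold ExcP
  refine CP.and (CP.comp wf_comp Computable.fst) (CP.and seq_comp ?_)
  refine CP.bex (f := fun q : Inst × ℕ => q.1.1.length)
    (p := fun (q : Inst × ℕ) m => seq q.1 (q.2 + bigL q.1 * m) ≠ 0)
    (primrec_len.to_comp.comp Computable.fst) ?_
  apply CP.not
  have h : Computable (fun q : (Inst × ℕ) × ℕ => (q.1.1, q.1.2 + bigL q.1.1 * q.2)) := by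
    refine (Computable.fst.comp Computable.fst).pair (comp_add (Computable.snd.comp Computable.fst)
      (comp_mul (comp_bigL.comp (Computable.fst.comp Computable.fst)) Computable.snd))
  have h2 := CP.comp seq_comp h
  exact h2

theorem comp_BadC (C : ℕ) (hC : 1 ≤ C) : ComputablePred (BadC C) := by
  have h1 : ComputablePred (fun q : Inst × ℕ => size q.1 ^ C ≤ q.2 ∧ ExcP q.1 q.2) := by
    refine CP.and (CP.le (comp_pow (primrec_size.to_comp.comp Computable.fst) (Computable.const C))
      Computable.snd) comp_ExcP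
  have h2 := lftP_comp (Z := fun p n => size p ^ C ≤ n ∧ ExcP p n) h1
  have h3 : ComputablePred (fun n : ℕ => ∃ i < instB n,
      lftP (α := Inst) (fun p n => size p ^ C ≤ n ∧ ExcP p n) i n) := by
    refine CP.bex (p := fun n i => lftP (α := Inst) (fun p n => size p ^ C ≤ n ∧ ExcP p n) i n)
      comp_instB ?_
    have h : Computable (fun q : ℕ × ℕ => (q.2, q.1)) := Computable.snd.pair Computable.fst
    have h4 := CP.comp h2 h
    exact h4
  refine h3.of_eq ?_
  intro n
  constructor
  · rintro ⟨i, _, p, _, hp⟩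
    exact ⟨p, hp⟩
  · rintro ⟨p, hp, hE⟩
    refine ⟨encode p, ?_, (lftP_encode _ p n).2 ⟨hp, hE⟩⟩
    apply encode_inst_lt p hE.1
    obtain ⟨s1, _⟩ := size_ge p hE.1
    calc size p = size p ^ 1 := (pow_one _).symm
      _ ≤ size p ^ C := Nat.pow_le_pow_right (by omega) hC
      _ ≤ n := hp

end Pool.Agent.H853R2.Skolem
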