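import Mathlib
import Pool.Agent.H853R2.Skolem.Explicit2

set_option autoImplicit false

namespace Pool.Agent.H853R2.Skolem

open Encodable

/-- zeros in the explicit set -/
theorem zero_explicit (C : ℕ) (p : Inst) (hwf : WF p) (n : ℕ) (hn : ¬ BadC C n)
    (h0 : seq p n = 0) : n < size p ^ C ∨ ∀ m, seq p (n + bigL p * m) = 0 := by
  by_cases hle : n < size p ^ C
  · exact Or.inl hle
  right
  obtain ⟨L0, h1, h2, h3, h4⟩ := small_period p hwf
  apply (h4 (bigL p) h3).2.1
  by_contra hcon
  push Not at hcon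
  obtain ⟨m, hm, hm'⟩ := hcon
  exact hn ⟨p, by omega, hwf, h0, m, hm, hm'⟩

/-- every arithmetic progression meets the explicit set -/
theorem ap_explicit (C : ℕ) (hC : 19 ≤ C) (s l : ℕ) (hl : 1 ≤ l) : ∃ m, ¬ BadC C (s + l * m) := by
  by_contra hcon
  push Not at hcon
  obtain ⟨M, hM⟩ : ∃ M, M = (s + l) ^ 18 := ⟨_, rfl⟩
  have h1 := count_bad C (by omega) (s + l * M)
  have hfin : {n | n ≤ s + l * M ∧ BadC C n}.Finite := (Set.finite_Iic _).subset (fun n hn => hn.1)
  have h2 : ((Finset.range (M + 1)).image (fun m => s + l * m) : Set ℕ) ⊆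
      {n | n ≤ s + l * M ∧ BadC C n} := by
    intro n hn
    simp only [Finset.coe_image, Set.mem_image, Finset.coe_range, Set.mem_Iio] at hn
    obtain ⟨m, hm, rfl⟩ := hn
    refine ⟨?_, hcon m⟩
    have : l * m ≤ l * M := Nat.mul_le_mul_left _ (by omega)
    omega
  have h3 := Set.ncard_le_ncard h2 hfin
  rw [Set.ncard_coe_finset, Finset.card_image_of_injective _ (by
    intro a b hab
    simp only at hab
    have : l * a = l * b := by omega
    exact Nat.eq_of_mul_eq_mul_left (by omega) this), Finset.card_range] at h3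
  have h4 : (M + 1) ^ 19 ≤ (s + l * M) ^ 18 := by
    calc (M + 1) ^ 19 ≤ (M + 1) ^ C := Nat.pow_le_pow_right (by omega) hC
      _ ≤ _ := Nat.pow_le_pow_left h3 C
      _ ≤ _ := h1
  have h5 : s + l * M ≤ (s + l) * (M + 1) := by nlinarith
  have h6 : (s + l * M) ^ 18 ≤ M * (M + 1) ^ 18 := by
    calc _ ≤ ((s + l) * (M + 1)) ^ 18 := Nat.pow_le_pow_left h5 18
      _ = M * (M + 1) ^ 18 := by rw [mul_pow, ← hM]
  have h7 : (M + 1) ^ 19 = (M + 1) * (M + 1) ^ 18 := pow_succ' _ _
  have h8 : 0 < (M + 1) ^ 18 := Nat.pow_pos (Nat.succ_pos M)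
  have h9 : M * (M + 1) ^ 18 < (M + 1) * (M + 1) ^ 18 := Nat.mul_lt_mul_of_pos_right (by omega) h8
  omega

theorem decide_explicit (C : ℕ) (hC : 19 ≤ C) :
    ComputablePred (fun p : Inst => WF p ∧ ∃ n, ¬ BadC C n ∧ seq p n = 0) := by
  have hBad := comp_BadC C (by omega)
  have hdec : ComputablePred (fun p : Inst => WF p ∧
      ((∃ r < bigL p, ∀ m < p.1.length, seq p (p.1.length + r + bigL p * m) = 0) ∨
      (∃ n < size p ^ C, ¬ BadC C n ∧ seq p n = 0))) := by
    apply CP.and wf_comp
    apply CP.or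
    · refine CP.bex (p := fun p r => ∀ m < p.1.length, seq p (p.1.length + r + bigL p * m) = 0)
        comp_bigL ?_
      refine CP.ball (f := fun q : Inst × ℕ => q.1.1.length)
        (p := fun (q : Inst × ℕ) m => seq q.1 (q.1.1.length + q.2 + bigL q.1 * m) = 0)
        (primrec_len.to_comp.comp Computable.fst) ?_
      have h : Computable (fun q : (Inst × ℕ) × ℕ =>
          (q.1.1, q.1.1.1.length + q.1.2 + bigL q.1.1 * q.2)) := by
        refine (Computable.fst.comp Computable.fst).pair (comp_add (comp_add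
          (primrec_len.to_comp.comp (Computable.fst.comp Computable.fst))
          (Computable.snd.comp Computable.fst))
          (comp_mul (comp_bigL.comp (Computable.fst.comp Computable.fst)) Computable.snd))
      have h2 := CP.comp seq_comp h
      exact h2
    · refine CP.bex (p := fun p n => ¬ BadC C n ∧ seq p n = 0)
        (comp_pow primrec_size.to_comp (Computable.const C)) ?_
      exact CP.and (CP.not (CP.comp hBad Computable.snd)) seq_comp
  refine hdec.of_eq ?_
  intro p
  apply and_congr_right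
  intro hwf
  obtain ⟨L0, h1, h2, h3, h4⟩ := small_period p hwf
  have hgood := h4 (bigL p) h3
  obtain ⟨s1, s2, s3, s4⟩ := size_ge p hwf
  constructor
  · rintro (⟨r, hr, hm⟩ | ⟨n, _, hn, hz⟩)
    · obtain ⟨m, hmS⟩ := ap_explicit C hC (p.1.length + r) (bigL p) (bigL_pos p)
      exact ⟨_, hmS, hgood.2.1 (p.1.length + r) hm m⟩
    · exact ⟨n, hn, hz⟩
  · rintro ⟨n, hn, hz⟩
    by_cases hle : n < size p ^ C
    · exact Or.inr ⟨n, hle, hn, hz⟩
    left
    have h5 : ∀ m, seq p (n + bigL p * m) = 0 := by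
      rcases zero_explicit C p hwf n hn hz with h5 | h5
      · exact absurd h5 hle
      · exact h5
    have hsz : size p ≤ size p ^ C := by
      calc size p = size p ^ 1 := (pow_one _).symm
        _ ≤ size p ^ C := Nat.pow_le_pow_right (by omega) (by omega)
    refine ⟨(n - p.1.length) % bigL p, Nat.mod_lt _ (bigL_pos p), ?_⟩
    intro m _
    apply zero_class (bigL_pos p) hgood _ n (by omega) (by omega) _ h5
    have e1 := Nat.div_add_mod (n - p.1.length) (bigL p)
    have e2 : n = p.1.length + (n - p.1.length) % bigL p + bigL p * ((n - p.1.length) / bigL p) := by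
      omega
    rw [Nat.add_mul_mod_self_left]
    conv_rhs => rw [e2, Nat.add_mul_mod_self_left]

/-! ### integer data -/

/-- code an integer by a pair -/
def code (z : ℤ) : ℕ × ℕ := (z.toNat, (-z).toNat)

theorem val_code (z : ℤ) : val (code z) = z := by
  unfold val code
  simp only
  omega

/-- the instance with coefficients `c 0, …, c (k-1)` and initial values `u 0, …, u (k-1)` -/
def inst (k : ℕ) (c u : ℕ → ℤ) : Inst :=
  (List.ofFn (fun i : Fin k => code (c i)), List.ofFn (fun i : Fin k => code (u i)))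

theorem inst_facts (k : ℕ) (hk : 1 ≤ k) (c u : ℕ → ℤ) (hc0 : c (k - 1) ≠ 0)
    (hrec : ∀ n, u (n + k) = ∑ i ∈ Finset.range k, c i * u (n + k - 1 - i)) :
    WF (inst k c u) ∧ IsSol (inst k c u) u := by
  have hget : ∀ (f : ℕ → ℤ) (i : ℕ), i < k →
      val ((List.ofFn (fun i : Fin k => code (f i))).getD i (0, 0)) = f i := by
    intro f i hi
    rw [List.getD_eq_getElem _ _ (by simpa using hi), List.getElem_ofFn, val_code]
  refine ⟨?_, ?_, ?_⟩
  · rw [wf_iff]
    refine ⟨⟨by simp [inst], by simpa [inst] using hk⟩, ?_⟩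
    have h := hget c (k - 1) (by omega)
    have e : (inst k c u).1.length = k := by simp [inst]
    rw [e]
    change ¬ ((List.ofFn (fun i : Fin k => code (c i))).getD (k - 1) (0, 0)).1 =
      ((List.ofFn (fun i : Fin k => code (c i))).getD (k - 1) (0, 0)).2
    intro heq
    unfold val at h
    apply hc0
    rw [← h, heq]
    ring
  · intro i hi
    have hi' : i < k := by simpa [inst] using hi
    exact (hget u i hi').symm
  · intro n
    have e : (inst k c u).1.length = k := by simp [inst]
    rw [e, hrec]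
    apply Finset.sum_congr rfl
    intro i hi
    rw [Finset.mem_range] at hi
    change _ = val ((List.ofFn (fun i : Fin k => code (c i))).getD i (0, 0)) * _
    rw [hget c i hi]

theorem inst_ht (k H : ℕ) (c u : ℕ → ℤ) (hc : ∀ i < k, |c i| ≤ H) (hu : ∀ i < k, |u i| ≤ H) :
    ht (inst k c u) ≤ H := by
  have hmx : ∀ f : ℕ → ℤ, (∀ i < k, |f i| ≤ H) →
      mx (List.ofFn (fun i : Fin k => code (f i))) ≤ H := by
    intro f hf
    apply mx_le
    intro q hq
    rw [List.mem_ofFn] at hq
    obtain ⟨i, rfl⟩ := hq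
    have := abs_le.1 (hf i i.2)
    unfold code
    simp only
    omega
  exact max_le (hmx c hc) (hmx u hu)

end Pool.Agent.H853R2.Skolem
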